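import Mathlib
import Pool.Agent.H447R2.ML.Q1
import Pool.Agent.H442R2.EHI.PntErr

set_option autoImplicit false

/-!
# Reciprocals of the primes in very short multiplicative windows `(x, e^l x]`

`l` is allowed to be as small as a fixed negative power of `log x`.
-/

namespace Pool.Agent.Helper18K9.PL

open Filter Topology
open Pool.Agent.H305R2 (pr pr_nonneg sum_pr)
open Pool.Agent.H447R2.ML (RL RL_nonneg)

lemma theta_ev (U : ℕ) : Tendsto (fun x : ℝ => |Chebyshev.theta x - x| * Real.log x ^ U / x) atTop (𝓝 0) := by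
  obtain ⟨C, hC, h⟩ := Pool.Agent.H442R2.EHI.PntErrAux.thetaU (U + 1)
  have hl : Tendsto (fun x : ℝ => Real.log x ^ U / x) atTop (𝓝 0) := by
    have h1 := Real.isLittleO_pow_log_id_atTop (n := U)
    have h2 := h1.tendsto_div_nhds_zero
    simpa using h2
  have hl2 : Tendsto (fun x : ℝ => C * 2 ^ (U + 1) * (Real.log x)⁻¹ + Real.log x ^ U / x) atTop (𝓝 0) := by
    have h1 : Tendsto (fun x : ℝ => C * 2 ^ (U + 1) * (Real.log x)⁻¹) atTop (𝓝 (C * 2 ^ (U + 1) * 0)) :=
      (Real.tendsto_log_atTop.inv_tendsto_atTop).const_mul _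
    simpa using h1.add hl
  refine squeeze_zero' ?_ ?_ hl2
  · filter_upwards [eventually_ge_atTop 1] with x hx
    have : 0 ≤ Real.log x := Real.log_nonneg hx
    positivity
  filter_upwards [eventually_ge_atTop 4] with x hx
  have hx0 : (0 : ℝ) < x := by linarith
  have hlx : 0 < Real.log x := Real.log_pos (by linarith)
  have hN1 : 2 ≤ ⌊x⌋₊ := Nat.le_floor (by norm_num; linarith)
  have hfl := Nat.floor_le hx0.le
  have hfl2 := Nat.lt_floor_add_one x
  have h1 := h ⌊x⌋₊ hN1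
  have hN2 : (2 : ℝ) ≤ (⌊x⌋₊ : ℝ) := by exact_mod_cast hN1
  -- log ⌊x⌋ ≥ (log x)/2
  have hlog : Real.log x / 2 ≤ Real.log (⌊x⌋₊ : ℝ) := by
    have h2 : x ≤ (⌊x⌋₊ : ℝ) ^ 2 := by nlinarith
    have h3 := Real.log_le_log hx0 h2
    rw [Real.log_pow] at h3
    push_cast at h3
    linarith
  have h4 : |Chebyshev.theta x - x| ≤ C * 2 ^ (U + 1) * x / Real.log x ^ (U + 1) + 1 := by
    rw [Chebyshev.theta_eq_theta_coe_floor]
    have h5 : |Chebyshev.theta (⌊x⌋₊ : ℝ) - x| ≤ |Chebyshev.theta (⌊x⌋₊ : ℝ) - (⌊x⌋₊ : ℝ)| + 1 := by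
      have h6 : |((⌊x⌋₊ : ℝ)) - x| ≤ 1 := by rw [abs_le]; constructor <;> linarith
      calc |Chebyshev.theta (⌊x⌋₊ : ℝ) - x| = |(Chebyshev.theta (⌊x⌋₊ : ℝ) - (⌊x⌋₊ : ℝ)) + ((⌊x⌋₊ : ℝ) - x)| := by
            congr 1; ring
        _ ≤ _ := (abs_add_le _ _).trans (by linarith)
    have h7 : C * ((⌊x⌋₊ : ℝ) / Real.log (⌊x⌋₊ : ℝ) ^ (U + 1)) ≤ C * 2 ^ (U + 1) * x / Real.log x ^ (U + 1) := by
      have h8 : (⌊x⌋₊ : ℝ) / Real.log (⌊x⌋₊ : ℝ) ^ (U + 1) ≤ x / (Real.log x / 2) ^ (U + 1) :=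
        div_le_div₀ hx0.le hfl (by positivity) (pow_le_pow_left₀ (by positivity) hlog _)
      calc C * ((⌊x⌋₊ : ℝ) / Real.log (⌊x⌋₊ : ℝ) ^ (U + 1)) ≤ C * (x / (Real.log x / 2) ^ (U + 1)) :=
            mul_le_mul_of_nonneg_left h8 hC.le
        _ = _ := by rw [div_pow]; field_simp
    linarith
  calc |Chebyshev.theta x - x| * Real.log x ^ U / x
      ≤ (C * 2 ^ (U + 1) * x / Real.log x ^ (U + 1) + 1) * Real.log x ^ U / x := by gcongr
    _ = _ := by field_simp; ring

lemma fin_aux {l ε ε' R : ℝ} (hl0 : 0 < l) (hl2 : l ≤ ε' / 16) (hl16 : l ≤ 1 / 16) (hε'0 : 0 < ε')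
    (_hε'1 : ε' ≤ 1) (hε'2 : ε' ≤ ε) (hR0 : 0 ≤ R) (hR1 : R ≤ 2 * l)
    (hlow2 : l - ε' / 8 * l ≤ (R + 2 * l / 16 * l) * (1 + l + l ^ 2))
    (hup2 : R ≤ l + (ε' / 4) * l) : |R - l| ≤ ε * l := by
  have hll : l * l ≤ ε' / 16 * l := mul_le_mul_of_nonneg_right hl2 hl0.le
  have hll2 : l * l ≤ l / 16 := by
    calc l * l ≤ 1 / 16 * l := mul_le_mul_of_nonneg_right hl16 hl0.le
      _ = _ := by ring
  have hel : ε' * l ≤ ε * l := mul_le_mul_of_nonneg_right hε'2 hl0.le
  have hel0 : 0 < ε' * l := mul_pos hε'0 hl0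
  rw [abs_le]
  constructor
  · have h2 : R + 2 * l / 16 * l ≤ 3 * l := by linarith
    have h3 : l + l ^ 2 ≤ 2 * l := by nlinarith
    have h4 : 0 ≤ R + 2 * l / 16 * l := by positivity
    have h6 : (R + 2 * l / 16 * l) * (l + l ^ 2) ≤ (3 * l) * (2 * l) :=
      mul_le_mul h2 h3 (by positivity) (by positivity)
    have e : (R + 2 * l / 16 * l) * (1 + l + l ^ 2) = R + 2 * l / 16 * l + (R + 2 * l / 16 * l) * (l + l ^ 2) := by ring
    rw [e] at hlow2
    linarith
  · linarith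

/-- very short windows -/
theorem RLs (U : ℕ) {ε : ℝ} (hε : 0 < ε) : ∃ η : ℝ, 0 < η ∧ η ≤ 1 ∧ ∃ X : ℝ, 1 < X ∧ ∀ x, X ≤ x →
    ∀ l, (Real.log x ^ U)⁻¹ ≤ l → l ≤ η → |RL l x * Real.log x - l| ≤ ε * l := by
  -- choose η
  set ε' := min ε 1 with hε'
  have hε'0 : 0 < ε' := lt_min hε one_pos
  have hε'1 : ε' ≤ 1 := min_le_right _ _
  have hε'2 : ε' ≤ ε := min_le_left _ _
  have hth : ∀ᶠ x : ℝ in atTop, |Chebyshev.theta x - x| * Real.log x ^ U / x < ε' / 32 := by
    have := (theta_ev U).eventually_lt_const (show (0 : ℝ) < ε' / 32 by positivity)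
    exact this
  obtain ⟨X1, hX1⟩ := hth.exists_forall_of_atTop
  refine ⟨ε' / 16, by positivity, by linarith, max X1 (Real.exp 16 / 1), ?_, ?_⟩
  · refine lt_of_lt_of_le ?_ (le_max_right _ _)
    have : 1 < Real.exp 16 := Real.one_lt_exp_iff.2 (by norm_num)
    linarith
  intro x hx l hl1 hl2
  have hxX : X1 ≤ x := (le_max_left _ _).trans hx
  have hx16 : Real.exp 16 ≤ x := by
    have := (le_max_right X1 (Real.exp 16 / 1)).trans hx
    simpa using this
  have hx0 : 0 < x := (Real.exp_pos _).trans_le hx16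
  have hlx : 16 ≤ Real.log x := by rwa [Real.le_log_iff_exp_le hx0]
  have hlx0 : 0 < Real.log x := by linarith
  have hl0 : 0 < l := lt_of_lt_of_le (by positivity) hl1
  have hl16 : l ≤ 1 / 16 := by linarith
  have he1 : 1 + l ≤ Real.exp l := by have := Real.add_one_le_exp l; linarith
  have he2 : Real.exp l ≤ 1 + l + l ^ 2 := by
    have := Real.abs_exp_sub_one_sub_id_le (x := l) (by rw [abs_le]; constructor <;> linarith)
    have := (abs_le.1 this).2
    linarith
  have hex : x ≤ Real.exp l * x := by nlinarith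
  have hex0 : 0 < Real.exp l * x := by positivity
  -- theta errors
  have ht1 : |Chebyshev.theta x - x| ≤ ε' / 32 * (l * x) := by
    have h1 := (hX1 x hxX).le
    rw [div_le_iff₀ hx0] at h1
    have h2 : 1 ≤ l * Real.log x ^ U := by
      rw [inv_le_iff_one_le_mul₀ (by positivity)] at hl1
      linarith
    calc |Chebyshev.theta x - x| = |Chebyshev.theta x - x| * 1 := (mul_one _).symm
      _ ≤ |Chebyshev.theta x - x| * (l * Real.log x ^ U) := by gcongr
      _ = (|Chebyshev.theta x - x| * Real.log x ^ U) * l := by ring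
      _ ≤ (ε' / 32 * x) * l := by gcongr
      _ = _ := by ring
  have ht2 : |Chebyshev.theta (Real.exp l * x) - Real.exp l * x| ≤ ε' / 32 * (l * (Real.exp l * x)) := by
    have h1 := (hX1 (Real.exp l * x) (hxX.trans hex)).le
    rw [div_le_iff₀ hex0] at h1
    have h3 : Real.log x ≤ Real.log (Real.exp l * x) := Real.log_le_log hx0 hex
    have h2 : 1 ≤ l * Real.log (Real.exp l * x) ^ U := by
      rw [inv_le_iff_one_le_mul₀ (by positivity)] at hl1
      have h4 : Real.log x ^ U ≤ Real.log (Real.exp l * x) ^ U := pow_le_pow_left₀ hlx0.le h3 _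
      nlinarith
    calc |Chebyshev.theta (Real.exp l * x) - Real.exp l * x| = |Chebyshev.theta (Real.exp l * x) - Real.exp l * x| * 1 := (mul_one _).symm
      _ ≤ |Chebyshev.theta (Real.exp l * x) - Real.exp l * x| * (l * Real.log (Real.exp l * x) ^ U) := by gcongr
      _ = (|Chebyshev.theta (Real.exp l * x) - Real.exp l * x| * Real.log (Real.exp l * x) ^ U) * l := by ring
      _ ≤ (ε' / 32 * (Real.exp l * x)) * l := by gcongr
      _ = _ := by ring
  have hD : |(Chebyshev.theta (Real.exp l * x) - Chebyshev.theta x) - (Real.exp l - 1) * x| ≤ ε' / 8 * (l * x) := by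
    have h5 : ε' / 32 * (l * (Real.exp l * x)) ≤ ε' / 16 * (l * x) := by
      have : Real.exp l ≤ 2 := by nlinarith
      have h6 : l * (Real.exp l * x) ≤ 2 * (l * x) := by
        have : 0 ≤ l * x := by positivity
        nlinarith
      nlinarith
    have h6 : 0 ≤ l * x := by positivity
    rw [abs_le] at *
    constructor <;> nlinarith [ht1.1, ht1.2, ht2.1, ht2.2]
  -- sum with logs
  set S := ∑ k ∈ Finset.Ioc ⌊x⌋₊ ⌊Real.exp l * x⌋₊, Real.log k * pr k with hS
  have hSth : S = Chebyshev.theta (Real.exp l * x) - Chebyshev.theta x := by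
    unfold Chebyshev.theta
    rw [hS, Finset.sum_filter, Finset.sum_filter]
    have hfl : ⌊x⌋₊ ≤ ⌊Real.exp l * x⌋₊ := Nat.floor_mono hex
    have h1 : Finset.Ioc 0 ⌊Real.exp l * x⌋₊ = Finset.Ioc 0 ⌊x⌋₊ ∪ Finset.Ioc ⌊x⌋₊ ⌊Real.exp l * x⌋₊ := by
      ext k; simp only [Finset.mem_union, Finset.mem_Ioc]; omega
    have h2 : Disjoint (Finset.Ioc 0 ⌊x⌋₊) (Finset.Ioc ⌊x⌋₊ ⌊Real.exp l * x⌋₊) := by
      rw [Finset.disjoint_left]; intro k; simp only [Finset.mem_Ioc]; omega
    rw [h1, Finset.sum_union h2, add_sub_cancel_left]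
    refine Finset.sum_congr rfl fun k _ => ?_
    unfold pr
    split_ifs <;> simp
  have hRup : RL l x * Real.log x ≤ S / x := by
    rw [le_div_iff₀ hx0, hS]
    unfold RL
    rw [Finset.sum_mul, Finset.sum_mul]
    refine Finset.sum_le_sum fun k hk => ?_
    rw [Finset.mem_Ioc, Nat.floor_lt hx0.le] at hk
    have hk0 : (0 : ℝ) < k := hx0.trans hk.1
    have h1 : Real.log x ≤ Real.log k := Real.log_le_log hx0 hk.1.le
    have h2 : (k : ℝ)⁻¹ * x ≤ 1 := by
      rw [inv_mul_le_iff₀ hk0]; linarith [hk.1]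
    calc (k : ℝ)⁻¹ * pr k * Real.log x * x = ((k : ℝ)⁻¹ * x) * (Real.log x * pr k) := by ring
      _ ≤ 1 * (Real.log k * pr k) :=
          mul_le_mul h2 (mul_le_mul_of_nonneg_right h1 (pr_nonneg k))
            (mul_nonneg hlx0.le (pr_nonneg k)) zero_le_one
      _ = _ := one_mul _
  have hRlow : S / (Real.exp l * x) ≤ RL l x * (Real.log x + l) := by
    rw [div_le_iff₀ hex0, hS]
    unfold RL
    rw [Finset.sum_mul, Finset.sum_mul]
    refine Finset.sum_le_sum fun k hk => ?_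
    rw [Finset.mem_Ioc, Nat.floor_lt hx0.le, Nat.le_floor_iff hex0.le] at hk
    have hk0 : (0 : ℝ) < k := hx0.trans hk.1
    have h1 : Real.log k ≤ Real.log x + l := by
      have := Real.log_le_log hk0 hk.2
      rw [Real.log_mul (Real.exp_pos _).ne' hx0.ne', Real.log_exp] at this
      linarith
    have h2 : 1 ≤ (k : ℝ)⁻¹ * (Real.exp l * x) := by
      rw [le_inv_mul_iff₀ hk0]; linarith [hk.2]
    have hlk : 0 ≤ Real.log k := by
      have : Real.log x ≤ Real.log k := Real.log_le_log hx0 hk.1.le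
      linarith
    calc Real.log k * pr k = 1 * (Real.log k * pr k) := (one_mul _).symm
      _ ≤ ((k : ℝ)⁻¹ * (Real.exp l * x)) * ((Real.log x + l) * pr k) :=
          mul_le_mul h2 (mul_le_mul_of_nonneg_right h1 (pr_nonneg k))
            (mul_nonneg hlk (pr_nonneg k)) (by positivity)
      _ = _ := by ring
  rw [hSth] at hRup hRlow
  obtain ⟨hD1, hD2⟩ := abs_le.1 hD
  have hR0 := RL_nonneg l x
  have hup : RL l x * Real.log x ≤ (Real.exp l - 1) + ε' / 8 * l := by
    refine hRup.trans ?_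
    rw [div_le_iff₀ hx0]
    nlinarith
  have hup2 : RL l x * Real.log x ≤ l + (ε' / 4) * l := by nlinarith
  have hlow : (Real.exp l - 1) - ε' / 8 * l ≤ RL l x * (Real.log x + l) * Real.exp l := by
    have h1 : ((Real.exp l - 1) - ε' / 8 * l) / Real.exp l ≤ RL l x * (Real.log x + l) := by
      refine le_trans ?_ hRlow
      rw [div_le_div_iff₀ (Real.exp_pos _) hex0]
      have h3 : ((Real.exp l - 1) - ε' / 8 * l) * x ≤ Chebyshev.theta (Real.exp l * x) - Chebyshev.theta x := by nlinarith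
      have h4 := mul_le_mul_of_nonneg_right h3 (Real.exp_pos l).le
      nlinarith
    rwa [div_le_iff₀ (Real.exp_pos _)] at h1
  have hR1 : RL l x * Real.log x ≤ 2 * l := by nlinarith
  have hRl : RL l x ≤ 2 * l / 16 := by
    rw [le_div_iff₀ (by norm_num)]
    nlinarith
  have hlow2 : l - ε' / 8 * l ≤ (RL l x * Real.log x + 2 * l / 16 * l) * (1 + l + l ^ 2) := by
    have h1 : RL l x * (Real.log x + l) ≤ RL l x * Real.log x + 2 * l / 16 * l := by nlinarith
    have h2 : RL l x * (Real.log x + l) * Real.exp l ≤ (RL l x * Real.log x + 2 * l / 16 * l) * (1 + l + l ^ 2) :=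
      mul_le_mul h1 he2 (Real.exp_pos _).le (by positivity)
    linarith
  exact fin_aux hl0 hl2 hl16 hε'0 hε'1 hε'2 (mul_nonneg hR0 hlx0.le) hR1 hlow2 hup2

end Pool.Agent.Helper18K9.PL
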