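import Mathlib
import Pool.Agent.H447R2.ML.Q2
import Pool.Agent.Helper18K9.PL.RLs

set_option autoImplicit false

/-!
# Window asymptotics for very short windows, uniformly in position and length
-/

namespace Pool.Agent.Helper18K9.PL

open Filter Topology MeasureTheory
open Pool.Agent.H305R2 (pr pr_nonneg ff VV ZZ VV_tendsto ZZ_nonneg ZZ_le_exp VV_nonneg)
open Pool.Agent.H447R2.ML (RL RL_nonneg TL TL_upper TL_lower window_le_TL TL_le_window)

lemma decay (k : ℕ) {b e : ℝ} (hb : 0 < b) (he : 0 < e) :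
    ∀ᶠ p : ℕ in atTop, (p : ℝ) ^ k * Real.exp (-(b * p)) < e := by
  have hcast := tendsto_natCast_atTop_atTop (R := ℝ)
  have h1 := (Real.tendsto_pow_mul_exp_neg_atTop_nhds_zero k).comp (hcast.const_mul_atTop hb)
  have h2 := h1.const_mul ((b ^ k)⁻¹)
  rw [mul_zero] at h2
  filter_upwards [h2.eventually_lt_const he] with p hp
  refine lt_of_le_of_lt (le_of_eq ?_) hp
  simp only [Function.comp]
  rw [mul_pow]
  field_simp

/-- **Uniform window asymptotics.** -/
theorem win {a : ℝ} (ha : 0 < a) (A : ℕ) {ε : ℝ} (hε : 0 < ε) :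
    ∃ η : ℝ, 0 < η ∧ ∃ κ : ℝ, 0 < κ ∧ ∃ P : ℕ, ∀ p : ℕ, P ≤ p → ∀ l : ℝ, ((p : ℝ) ^ A)⁻¹ ≤ l → l ≤ η →
      ∀ y : ℝ, |y - a * p| ≤ κ * p →
        |(∫ t in Set.Ioc y (y + l), ff p t) * (p / Real.log p) -
          Real.exp Real.eulerMascheroniConstant / a * l| ≤ ε * l := by
  set G := Real.exp Real.eulerMascheroniConstant with hG
  have hG0 : 0 < G := Real.exp_pos _
  -- choose δ
  have hδ : ∃ δ : ℝ, 0 < δ ∧ δ < 1 / 2 ∧ δ < a / 2 ∧ δ < G ∧
      (1 + δ) / (1 - δ) * ((G + δ) / (a - δ)) < G / a + ε / 2 ∧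
      G / a - ε / 2 < (1 - δ) * ((G - δ) / (a + δ)) := by
    have h1 : Tendsto (fun δ : ℝ => (1 + δ) / (1 - δ) * ((G + δ) / (a - δ))) (𝓝[>] 0) (𝓝 (G / a)) := by
      have : ContinuousAt (fun δ : ℝ => (1 + δ) / (1 - δ) * ((G + δ) / (a - δ))) 0 := by
        refine ContinuousAt.mul (ContinuousAt.div (by fun_prop) (by fun_prop) (by norm_num))
          (ContinuousAt.div (by fun_prop) (by fun_prop) (by simpa using ha.ne'))
      have h2 := this.tendsto.mono_left (nhdsWithin_le_nhds (s := Set.Ioi 0))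
      simpa using h2
    have h2 : Tendsto (fun δ : ℝ => (1 - δ) * ((G - δ) / (a + δ))) (𝓝[>] 0) (𝓝 (G / a)) := by
      have : ContinuousAt (fun δ : ℝ => (1 - δ) * ((G - δ) / (a + δ))) 0 := by
        refine ContinuousAt.mul (by fun_prop) (ContinuousAt.div (by fun_prop) (by fun_prop)
          (by simpa using ha.ne'))
      have h2 := this.tendsto.mono_left (nhdsWithin_le_nhds (s := Set.Ioi 0))
      simpa using h2
    have h3 := h1.eventually_lt_const (show G / a < G / a + ε / 2 by linarith)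
    have h4 := h2.eventually_const_lt (show G / a - ε / 2 < G / a by linarith)
    have h5 : ∀ᶠ δ : ℝ in 𝓝[>] 0, δ < 1 / 2 :=
      (eventually_lt_nhds (by norm_num)).filter_mono nhdsWithin_le_nhds
    have h6 : ∀ᶠ δ : ℝ in 𝓝[>] 0, δ < a / 2 :=
      (eventually_lt_nhds (by positivity)).filter_mono nhdsWithin_le_nhds
    have h7 : ∀ᶠ δ : ℝ in 𝓝[>] 0, δ < G :=
      (eventually_lt_nhds hG0).filter_mono nhdsWithin_le_nhds
    obtain ⟨δ, hδ⟩ := ((self_mem_nhdsWithin (a := (0 : ℝ)) (s := Set.Ioi 0)) |>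
      fun h => (h3.and (h4.and (h5.and (h6.and (h7.and h))))).exists)
    exact ⟨δ, hδ.2.2.2.2.2, hδ.2.2.1, hδ.2.2.2.1, hδ.2.2.2.2.1, hδ.1, hδ.2.1⟩
  obtain ⟨δ, hδ0, hδ1, hδa, hδG, hup, hlow⟩ := hδ
  obtain ⟨η, hη, hη1, X, hX1, hX⟩ := RLs (A + 1) hδ0
  have hcast := tendsto_natCast_atTop_atTop (R := ℝ)
  -- eventual conditions
  have hV : ∀ᶠ p : ℕ in atTop, |VV p / Real.log p - G| < δ := by
    have := (Metric.tendsto_nhds.1 VV_tendsto) δ hδ0
    simpa only [Real.dist_eq] using this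
  have hZ : ∀ᶠ p : ℕ in atTop, ZZ p ≤ Real.exp (δ * a / 8 * p) := ZZ_le_exp (by positivity)
  have hE : ∀ᶠ p : ℕ in atTop, (p : ℝ) ^ (A + 1) * Real.exp (-(δ * a / 8 * p)) < ε / 14 :=
    decay (A + 1) (by positivity) (by positivity)
  have hbig : ∀ᶠ p : ℕ in atTop, (4 / a) ^ (A + 1) ≤ (p : ℝ) := hcast.eventually_ge_atTop _
  have hXp : ∀ᶠ p : ℕ in atTop, X ≤ Real.exp (a / 4 * p) :=
    (Real.tendsto_exp_atTop.comp (hcast.const_mul_atTop (by positivity : 0 < a / 4))).eventually_ge_atTop X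
  have hp1 : ∀ᶠ p : ℕ in atTop, 8 / a ≤ (p : ℝ) := hcast.eventually_ge_atTop _
  have hc3 : ∀ᶠ p : ℕ in atTop, (p : ℝ) ^ 1 * Real.exp (-(a / 4 * p)) < 1 / 2 :=
    decay 1 (by positivity) (by positivity)
  obtain ⟨P, hP⟩ := (hV.and (hZ.and (hE.and (hbig.and (hXp.and (hp1.and (hc3.and
    (eventually_ge_atTop 3)))))))).exists_forall_of_atTop
  refine ⟨η, hη, δ, hδ0, P, fun p hp l hl hlη y hy => ?_⟩
  obtain ⟨hV, hZ, hE, hbig, hXp, hp1, hc3, hp3⟩ := hP p hp
  have hp3' : (3 : ℝ) ≤ p := by exact_mod_cast hp3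
  have hp0 : (0 : ℝ) < p := by linarith
  have hl0 : 0 < l := lt_of_lt_of_le (by positivity) hl
  have hl1 : l ≤ 1 := hlη.trans hη1
  have hlog : 1 ≤ Real.log p := by
    rw [Real.le_log_iff_exp_le hp0]
    have := Real.exp_one_lt_d9
    linarith
  have hlog0 : 0 < Real.log p := by linarith
  obtain ⟨hy1, hy2⟩ := abs_le.1 hy
  have hylow : (a - δ) * p ≤ y := by nlinarith
  have hyup : y ≤ (a + δ) * p := by nlinarith
  have had : 0 < a - δ := by linarith
  have hya : a / 2 * p ≤ y := by nlinarith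
  have hap : 8 ≤ a * p := by rw [div_le_iff₀ ha] at hp1; linarith
  have hy0 : 0 < y := by nlinarith
  have hy4 : 4 ≤ y := by nlinarith
  have hδy : (1 - δ) * y ≥ a / 4 * p := by nlinarith
  set X' := Real.exp ((1 - δ) * y) with hX'
  have hX'1 : 1 < X' := by
    rw [hX', Real.one_lt_exp_iff]
    exact mul_pos (by linarith) hy0
  have hXX' : X ≤ X' := hXp.trans (Real.exp_le_exp.2 hδy)
  have hRR : ∀ x, X' ≤ x → |RL l x * Real.log x - l| ≤ δ * l := by
    intro x hx
    refine hX x (hXX'.trans hx) l ?_ hlη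
    have h1 : a / 4 * p ≤ Real.log x := by
      rw [Real.le_log_iff_exp_le (by linarith)]
      exact (Real.exp_le_exp.2 hδy).trans hx
    have h2 : (p : ℝ) ^ A ≤ Real.log x ^ (A + 1) := by
      calc (p : ℝ) ^ A = (4 / a) ^ (A + 1) * ((a / 4) ^ (A + 1) * (p : ℝ) ^ A) := by
            rw [← mul_assoc, ← mul_pow]
            have : (4 / a) * (a / 4) = 1 := by field_simp
            rw [this, one_pow, one_mul]
        _ ≤ p * ((a / 4) ^ (A + 1) * (p : ℝ) ^ A) := by gcongr
        _ = (a / 4 * p) ^ (A + 1) := by rw [mul_pow]; ring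
        _ ≤ _ := pow_le_pow_left₀ (by positivity) h1 _
    exact (inv_anti₀ (by positivity) h2).trans hl
  have hRRu : ∀ x, X' ≤ x → RL l x * Real.log x ≤ (1 + δ) * l := fun x hx => by
    have := abs_le.1 (hRR x hx); nlinarith [this.2]
  have hRRl : ∀ x, X' ≤ x → (1 - δ) * l ≤ RL l x * Real.log x := fun x hx => by
    have := abs_le.1 (hRR x hx); nlinarith [this.1]
  have hcond3 : Real.exp (δ * y) * (p + 1) ≤ Real.exp y := by
    have h1 : (p : ℝ) + 1 ≤ Real.exp (a / 4 * p) := by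
      have h2 : (p : ℝ) < 1 / 2 * Real.exp (a / 4 * p) := by
        rw [pow_one, Real.exp_neg, ← div_eq_mul_inv, div_lt_iff₀ (Real.exp_pos _)] at hc3
        linarith
      linarith
    calc Real.exp (δ * y) * (p + 1) ≤ Real.exp (δ * y) * Real.exp ((1 - δ) * y) :=
          mul_le_mul_of_nonneg_left (h1.trans (Real.exp_le_exp.2 hδy)) (Real.exp_pos _).le
      _ = Real.exp y := by rw [← Real.exp_add]; congr 1; ring
  have hTu := TL_upper (p := p) (l := l) (M := (1 + δ) * l) hl1 (by positivity) hδ0 (by linarith : δ < 1)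
    hX'1 hRRu le_rfl hy0
  have hTl := TL_lower (p := p) (l := l) (m := (1 - δ) * l) hl0.le (mul_nonneg (by linarith) hl0.le)
    (by nlinarith) hδ0 (by linarith : δ < 1) hX'1 hRRl le_rfl hy0 hcond3
  have hWu := window_le_TL (p := p) hl0.le hy0.le
  have hWl := TL_le_window (p := p) hl0.le hy0.le
  have hZ0 := ZZ_nonneg p
  -- the error
  set E := Real.exp (-(δ * y / 2)) * ZZ p with hEdef
  have hE0 : 0 ≤ E := by positivity
  have hE1 : E ≤ Real.exp (-(δ * a / 8 * p)) := by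
    calc E ≤ Real.exp (-(δ * y / 2)) * Real.exp (δ * a / 8 * p) :=
          mul_le_mul_of_nonneg_left hZ (Real.exp_pos _).le
      _ = Real.exp (-(δ * y / 2) + δ * a / 8 * p) := by rw [Real.exp_add]
      _ ≤ _ := by
        apply Real.exp_le_exp.2
        have := mul_le_mul_of_nonneg_left hya hδ0.le
        linarith
  have hE2 : Real.exp (-y) ≤ Real.exp (-(δ * a / 8 * p)) := by
    apply Real.exp_le_exp.2
    nlinarith [mul_pos ha hp0]
  have hEl : ∀ F : ℝ, 0 ≤ F → F ≤ 7 * Real.exp (-(δ * a / 8 * p)) → F * (p / Real.log p) ≤ ε / 2 * l := by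
    intro F hF0 hF
    have h1 : (p : ℝ) / Real.log p ≤ p := div_le_self hp0.le hlog
    have h2 : 1 ≤ (p : ℝ) ^ A * l := by
      rw [inv_le_iff_one_le_mul₀ (by positivity)] at hl
      linarith
    calc F * (p / Real.log p) ≤ (7 * Real.exp (-(δ * a / 8 * p))) * p := by gcongr
      _ = (7 * Real.exp (-(δ * a / 8 * p)) * p) * 1 := (mul_one _).symm
      _ ≤ (7 * Real.exp (-(δ * a / 8 * p)) * p) * ((p : ℝ) ^ A * l) := by gcongr
      _ = 7 * ((p : ℝ) ^ (A + 1) * Real.exp (-(δ * a / 8 * p))) * l := by ring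
      _ ≤ 7 * (ε / 14) * l := by gcongr
      _ = _ := by ring
  have hpl0 : 0 < (p : ℝ) / Real.log p := by positivity
  obtain ⟨hV1, hV2⟩ := abs_lt.1 hV
  have hVlog0 : 0 ≤ VV p / Real.log p := div_nonneg (VV_nonneg p) hlog0.le
  have hpy1 : (p : ℝ) / y ≤ 1 / (a - δ) := by
    rw [div_le_div_iff₀ hy0 had]; linarith
  have hpy2 : 1 / (a + δ) ≤ (p : ℝ) / y := by
    rw [div_le_div_iff₀ (by positivity) hy0]; linarith
  have hVu : VV p / Real.log p * (p / y) ≤ (G + δ) / (a - δ) := by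
    calc VV p / Real.log p * (p / y) ≤ (G + δ) * (1 / (a - δ)) :=
          mul_le_mul (by linarith) hpy1 (by positivity) (by positivity)
      _ = _ := by ring
  have hVl : (G - δ) / (a + δ) ≤ VV p / Real.log p * (p / y) := by
    calc (G - δ) / (a + δ) = (G - δ) * (1 / (a + δ)) := by ring
      _ ≤ _ := mul_le_mul (by linarith) hpy2 (by positivity) hVlog0
  rw [abs_le]
  constructor
  · have e : (1 - δ) * l / y * VV p - (E + 4 * Real.exp (-y)) ≤ ∫ t in Set.Ioc y (y + l), ff p t := by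
      have : 1 / y * E ≤ E := by
        have h1 : 1 / y ≤ 1 := by rw [div_le_one hy0]; linarith
        nlinarith
      linarith
    have e2 := mul_le_mul_of_nonneg_right e hpl0.le
    have e3 := hEl (E + 4 * Real.exp (-y)) (by positivity) (by linarith [Real.exp_pos (-(δ * a / 8 * p))])
    have e4 : (1 - δ) * l / y * VV p * (p / Real.log p) = (1 - δ) * (VV p / Real.log p * (p / y)) * l := by
      field_simp
    rw [sub_mul, e4] at e2
    have e5 : (G / a - ε / 2) * l ≤ (1 - δ) * (VV p / Real.log p * (p / y)) * l := by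
      refine mul_le_mul_of_nonneg_right ?_ hl0.le
      refine hlow.le.trans ?_
      exact mul_le_mul_of_nonneg_left hVl (by linarith)
    linarith
  · have e : (∫ t in Set.Ioc y (y + l), ff p t) ≤ (1 + δ) * l / ((1 - δ) * y) * VV p +
      (3 * E + 2 * Real.exp (-y)) := by linarith
    have e2 := mul_le_mul_of_nonneg_right e hpl0.le
    have e3 := hEl (3 * E + 2 * Real.exp (-y)) (by positivity) (by linarith [Real.exp_pos (-(δ * a / 8 * p))])
    have h1δ : (0 : ℝ) < 1 - δ := by linarith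
    have e4 : (1 + δ) * l / ((1 - δ) * y) * VV p * (p / Real.log p) =
        (1 + δ) / (1 - δ) * (VV p / Real.log p * (p / y)) * l := by
      field_simp
    rw [add_mul, e4] at e2
    have e5 : (1 + δ) / (1 - δ) * (VV p / Real.log p * (p / y)) * l ≤ (G / a + ε / 2) * l := by
      refine mul_le_mul_of_nonneg_right ?_ hl0.le
      refine le_trans ?_ hup.le
      exact mul_le_mul_of_nonneg_left hVu (by positivity)
    linarith

end Pool.Agent.Helper18K9.PL
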