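import Mathlib

set_option autoImplicit false

/-!
Convergence of factorial moments to those of independent Poisson variables implies convergence of
the joint laws.
-/

namespace Pool.Agent.Helper18K9.PL

open Finset Filter Topology MeasureTheory

/-- partial Bonferroni sum -/
noncomputable def BA (M n N : ℕ) : ℝ :=
  ∑ j ∈ range (M + 1), (-1 : ℝ) ^ j * ((n + j).choose n) * (N.choose (n + j))

/-- Bonferroni error -/
noncomputable def BB (M n N : ℕ) : ℝ := ((n + M + 1).choose n : ℝ) * (N.choose (n + M + 1))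

lemma choose_aux (N n j : ℕ) : (n + j).choose n * N.choose (n + j) = N.choose n * (N - n).choose j := by
  rcases le_or_gt (n + j) N with h | h
  · have := Nat.choose_mul (n := N) (k := n + j) (s := n) (Nat.le_add_right n j)
    rw [Nat.add_sub_cancel_left] at this
    rw [mul_comm, this]
  · rw [Nat.choose_eq_zero_of_lt h, mul_zero]
    rcases le_or_gt n N with h2 | h2
    · rw [Nat.choose_eq_zero_of_lt (show N - n < j by omega), mul_zero]
    · rw [Nat.choose_eq_zero_of_lt h2, zero_mul]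

lemma bonf (M n N : ℕ) : |(if N = n then (1 : ℝ) else 0) - BA M n N| ≤ BB M n N := by
  have e1 : BA M n N = (N.choose n : ℝ) * ∑ j ∈ range (M + 1), (-1 : ℝ) ^ j * ((N - n).choose j) := by
    unfold BA
    rw [Finset.mul_sum]
    refine Finset.sum_congr rfl fun j _ => ?_
    have := choose_aux N n j
    have h2 : ((n + j).choose n : ℝ) * (N.choose (n + j)) = (N.choose n) * ((N - n).choose j) := by
      exact_mod_cast this
    rw [mul_assoc, h2]
    ring
  have e2 : BB M n N = (N.choose n : ℝ) * ((N - n).choose (M + 1)) := by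
    unfold BB
    have := choose_aux N n (M + 1)
    rw [← add_assoc] at this
    exact_mod_cast this
  rw [e1, e2]
  rcases lt_trichotomy N n with h | h | h
  · rw [Nat.choose_eq_zero_of_lt h, if_neg (by omega)]
    simp
  · subst h
    rw [if_pos rfl]
    have : ∑ j ∈ range (M + 1), (-1 : ℝ) ^ j * ((N - N).choose j) = 1 := by
      rw [Nat.sub_self, Finset.sum_range_succ']
      simp
    rw [this]
    simp
  · have h3 : N - n ≠ 0 := by omega
    have h4 : ∑ j ∈ range (M + 1), (-1 : ℝ) ^ j * ((N - n).choose j) = (-1 : ℝ) ^ M * ((N - n - 1).choose M) := by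
      have h5 : ∑ j ∈ range (M + 1), (-1 : ℤ) ^ j * ((N - n).choose j) = (-1 : ℤ) ^ M * ((N - n - 1).choose M) := by
        obtain ⟨x, hx⟩ : ∃ x, N - n = x + 1 := ⟨N - n - 1, by omega⟩
        rw [hx, Int.alternating_sum_range_choose_eq_choose]
        simp
      exact_mod_cast h5
    rw [h4, if_neg (by omega), zero_sub, abs_neg, abs_mul, abs_mul, abs_pow, abs_neg, abs_one, one_pow, one_mul,
      Nat.abs_cast, Nat.abs_cast]
    refine mul_le_mul_of_nonneg_left ?_ (Nat.cast_nonneg _)
    have h6 : (N - n - 1).choose M ≤ (N - n).choose (M + 1) := by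
      obtain ⟨x, hx⟩ : ∃ x, N - n = x + 1 := ⟨N - n - 1, by omega⟩
      rw [hx, Nat.add_sub_cancel, Nat.choose_succ_succ]
      omega
    exact_mod_cast h6

lemma BB_nonneg (M n N : ℕ) : 0 ≤ BB M n N := by unfold BB; positivity

lemma prod_bonf {ι : Type} [DecidableEq ι] (s : Finset ι) (I A B : ι → ℝ) (hI0 : ∀ i ∈ s, 0 ≤ I i)
    (hI1 : ∀ i ∈ s, I i ≤ 1) (hB : ∀ i ∈ s, 0 ≤ B i) (h : ∀ i ∈ s, |I i - A i| ≤ B i) :
    |∏ i ∈ s, I i - ∏ i ∈ s, A i| ≤ ∏ i ∈ s, (1 + B i) - 1 := by
  induction s using Finset.induction_on with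
  | empty => simp
  | insert i s hi ih =>
    rw [Finset.prod_insert hi, Finset.prod_insert hi, Finset.prod_insert hi]
    have ih' := ih (fun j hj => hI0 j (Finset.mem_insert_of_mem hj))
      (fun j hj => hI1 j (Finset.mem_insert_of_mem hj)) (fun j hj => hB j (Finset.mem_insert_of_mem hj))
      (fun j hj => h j (Finset.mem_insert_of_mem hj))
    have a0 := hI0 i (Finset.mem_insert_self _ _)
    have a1 := hI1 i (Finset.mem_insert_self _ _)
    have b0 := hB i (Finset.mem_insert_self _ _)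
    have c0 := h i (Finset.mem_insert_self _ _)
    have p1 : |∏ j ∈ s, I j| ≤ 1 := by
      rw [abs_of_nonneg (Finset.prod_nonneg fun j hj => hI0 j (Finset.mem_insert_of_mem hj))]
      exact Finset.prod_le_one (fun j hj => hI0 j (Finset.mem_insert_of_mem hj))
        (fun j hj => hI1 j (Finset.mem_insert_of_mem hj))
    set Pp := ∏ j ∈ s, I j
    set Q := ∏ j ∈ s, A j
    set R := ∏ j ∈ s, (1 + B j)
    have hQ : |Q| ≤ R := by
      calc |Q| = |Pp - (Pp - Q)| := by congr 1; ring
        _ ≤ |Pp| + |Pp - Q| := abs_sub _ _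
        _ ≤ 1 + (R - 1) := add_le_add p1 ih'
        _ = R := by ring
    calc |I i * Pp - A i * Q| = |I i * (Pp - Q) + (I i - A i) * Q| := by congr 1; ring
      _ ≤ |I i * (Pp - Q)| + |(I i - A i) * Q| := abs_add_le _ _
      _ ≤ 1 * (R - 1) + B i * R := by
          rw [abs_mul, abs_mul, abs_of_nonneg a0]
          have hR : 0 ≤ R - 1 := (abs_nonneg _).trans ih'
          exact add_le_add (mul_le_mul a1 ih' (abs_nonneg _) zero_le_one)
            (mul_le_mul c0 hQ (abs_nonneg _) b0)
      _ = _ := by ring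

section

variable {Ω : Type} [MeasurableSpace Ω] {P : Measure Ω} [IsProbabilityMeasure P] {ι : Type} [Fintype ι]
  [DecidableEq ι] {Z : Type} {l : Filter Z}

lemma int_choose {N : ι → Ω → ℕ} (hN : ∀ i, Measurable (N i)) {B : ℕ} (hB : ∀ i ω, N i ω ≤ B)
    (k : ι → ℕ) : Integrable (fun ω => ∏ i, ((N i ω).choose (k i) : ℝ)) P := by
  refine Integrable.of_bound (C := ∏ _i : ι, (2 : ℝ) ^ B) ?_ (Eventually.of_forall fun ω => ?_)
  · refine Measurable.aestronglyMeasurable ?_
    refine Finset.measurable_prod _ fun i _ => ?_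
    exact (measurable_from_nat (f := fun n : ℕ => (n.choose (k i) : ℝ))).comp (hN i)
  · rw [Real.norm_of_nonneg (Finset.prod_nonneg fun i _ => Nat.cast_nonneg _)]
    refine Finset.prod_le_prod (fun i _ => Nat.cast_nonneg _) fun i _ => ?_
    have h1 : (N i ω).choose (k i) ≤ 2 ^ B :=
      (Nat.choose_le_two_pow _ _).trans (Nat.pow_le_pow_right (by norm_num) (hB i ω))
    exact_mod_cast h1

/-- expectation of a product of linear combinations of binomials -/
lemma lim_comb {N : Z → ι → Ω → ℕ} (hN : ∀ z i, Measurable (N z i)) (hB : ∀ z, ∃ B, ∀ i ω, N z i ω ≤ B)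
    {lam : ι → ℝ}
    (hmom : ∀ k : ι → ℕ, Tendsto (fun z => ∫ ω, ∏ i, ((N z i ω).choose (k i) : ℝ) ∂P) l
      (𝓝 (∏ i, lam i ^ (k i) / (k i).factorial))) (R : ℕ) (cf : ι → ℕ → ℝ) (κ : ι → ℕ → ℕ) :
    Tendsto (fun z => ∫ ω, ∏ i, (∑ t ∈ range R, cf i t * ((N z i ω).choose (κ i t) : ℝ)) ∂P) l
      (𝓝 (∏ i, (∑ t ∈ range R, cf i t * (lam i ^ (κ i t) / (κ i t).factorial)))) := by
  have e : ∀ z, ∫ ω, ∏ i, (∑ t ∈ range R, cf i t * ((N z i ω).choose (κ i t) : ℝ)) ∂P =
      ∑ J ∈ Fintype.piFinset (fun _ : ι => range R), (∏ i, cf i (J i)) *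
        ∫ ω, ∏ i, ((N z i ω).choose (κ i (J i)) : ℝ) ∂P := by
    intro z
    obtain ⟨B, hB'⟩ := hB z
    simp_rw [Finset.prod_univ_sum, Finset.prod_mul_distrib]
    rw [integral_finsetSum]
    · refine Finset.sum_congr rfl fun J _ => ?_
      rw [integral_const_mul]
    · intro J _
      exact (int_choose (hN z) hB' _).const_mul _
  simp_rw [e]
  rw [Finset.prod_univ_sum]
  refine tendsto_finsetSum _ fun J _ => ?_
  rw [Finset.prod_mul_distrib]
  exact (hmom _).const_mul _

lemma lim_BA (n : ℕ) (lam : ℝ) : Tendsto (fun M : ℕ => ∑ j ∈ range (M + 1),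
    (-1 : ℝ) ^ j * ((n + j).choose n) * (lam ^ (n + j) / (n + j).factorial)) atTop
    (𝓝 (Real.exp (-lam) * lam ^ n / n.factorial)) := by
  have e : ∀ j : ℕ, (-1 : ℝ) ^ j * ((n + j).choose n) * (lam ^ (n + j) / (n + j).factorial) =
      (lam ^ n / n.factorial) * ((-lam) ^ j / j.factorial) := by
    intro j
    have h1 : ((n + j).choose n : ℝ) = (n + j).factorial / (n.factorial * j.factorial) := by
      rw [Nat.cast_choose ℝ (Nat.le_add_right n j), Nat.add_sub_cancel_left]
    rw [h1, neg_pow lam, pow_add]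
    have h2 : ((n + j).factorial : ℝ) ≠ 0 := by exact_mod_cast Nat.factorial_ne_zero _
    have h3 : ((n).factorial : ℝ) ≠ 0 := by exact_mod_cast Nat.factorial_ne_zero _
    have h4 : ((j).factorial : ℝ) ≠ 0 := by exact_mod_cast Nat.factorial_ne_zero _
    field_simp
  simp_rw [e, ← Finset.mul_sum]
  have h5 : Tendsto (fun M : ℕ => ∑ j ∈ range M, ((-lam) ^ j / (j.factorial : ℝ))) atTop (𝓝 (Real.exp (-lam))) := by
    have := NormedSpace.expSeries_div_hasSum_exp (-lam)
    rw [← Real.exp_eq_exp_ℝ] at this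
    exact this.tendsto_sum_nat
  have h6 := ((tendsto_add_atTop_iff_nat 1).2 h5).const_mul (lam ^ n / n.factorial)
  convert h6 using 2
  ring

lemma lim_BB (n : ℕ) (lam : ℝ) : Tendsto (fun M : ℕ =>
    ((n + M + 1).choose n : ℝ) * (lam ^ (n + M + 1) / (n + M + 1).factorial)) atTop (𝓝 0) := by
  have e : ∀ M : ℕ, ((n + M + 1).choose n : ℝ) * (lam ^ (n + M + 1) / (n + M + 1).factorial) =
      (lam ^ n / n.factorial) * (lam ^ (M + 1) / (M + 1).factorial) := by
    intro M
    have h1 : ((n + M + 1).choose n : ℝ) = (n + M + 1).factorial / (n.factorial * (M + 1).factorial) := by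
      rw [Nat.cast_choose ℝ (by omega : n ≤ n + M + 1), show n + M + 1 - n = M + 1 by omega]
    rw [h1, show n + M + 1 = n + (M + 1) by ring, pow_add]
    have h2 : ((n + (M + 1)).factorial : ℝ) ≠ 0 := by exact_mod_cast Nat.factorial_ne_zero _
    have h3 : ((n).factorial : ℝ) ≠ 0 := by exact_mod_cast Nat.factorial_ne_zero _
    have h4 : ((M + 1).factorial : ℝ) ≠ 0 := by exact_mod_cast Nat.factorial_ne_zero _
    field_simp
  simp_rw [e]
  have h5 := FloorSemiring.tendsto_pow_div_factorial_atTop lam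
  have h6 := ((tendsto_add_atTop_iff_nat 1).2 h5).const_mul (lam ^ n / n.factorial)
  rw [mul_zero] at h6
  exact h6

/-- **Method of factorial moments.** -/
theorem poisson_limit {N : Z → ι → Ω → ℕ} (hN : ∀ z i, Measurable (N z i))
    (hB : ∀ z, ∃ B, ∀ i ω, N z i ω ≤ B) {lam : ι → ℝ}
    (hmom : ∀ k : ι → ℕ, Tendsto (fun z => ∫ ω, ∏ i, ((N z i ω).choose (k i) : ℝ) ∂P) l
      (𝓝 (∏ i, lam i ^ (k i) / (k i).factorial))) (n : ι → ℕ) :
    Tendsto (fun z => P.real {ω | ∀ i, N z i ω = n i}) l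
      (𝓝 (∏ i, (Real.exp (-(lam i)) * lam i ^ (n i) / (n i).factorial))) := by
  -- the probability as an expectation
  have hP : ∀ z, P.real {ω | ∀ i, N z i ω = n i} = ∫ ω, ∏ i, (if N z i ω = n i then (1 : ℝ) else 0) ∂P := by
    intro z
    have hms : MeasurableSet {ω | ∀ i, N z i ω = n i} := by
      have : {ω | ∀ i, N z i ω = n i} = ⋂ i, (N z i) ⁻¹' {n i} := by ext ω; simp
      rw [this]
      exact MeasurableSet.iInter fun i => hN z i (measurableSet_singleton _)
    rw [← integral_indicator_one hms]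
    refine integral_congr_ae (Eventually.of_forall fun ω => ?_)
    simp only [Set.indicator_apply, Set.mem_ofPred_eq, Pi.one_apply]
    rw [Finset.prod_ite_zero]
    simp
  -- bounds for fixed M
  have hA : ∀ M : ℕ, Tendsto (fun z => ∫ ω, ∏ i, BA M (n i) (N z i ω) ∂P) l
      (𝓝 (∏ i, (∑ j ∈ range (M + 1), (-1 : ℝ) ^ j * ((n i + j).choose (n i)) *
        (lam i ^ (n i + j) / (n i + j).factorial)))) := fun M =>
    lim_comb hN hB hmom (M + 1) (fun i j => (-1 : ℝ) ^ j * ((n i + j).choose (n i))) (fun i j => n i + j)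
  have hBt : ∀ M : ℕ, Tendsto (fun z => ∫ ω, ∏ i, (1 + BB M (n i) (N z i ω)) ∂P) l
      (𝓝 (∏ i, (1 + ((n i + M + 1).choose (n i) : ℝ) *
        (lam i ^ (n i + M + 1) / (n i + M + 1).factorial)))) := by
    intro M
    have := lim_comb (l := l) (P := P) hN hB hmom 2 (fun i t => if t = 0 then 1 else ((n i + M + 1).choose (n i) : ℝ))
      (fun i t => if t = 0 then 0 else n i + M + 1)
    simpa [Finset.sum_range_succ, BB] using this
  rw [Metric.tendsto_nhds]
  intro ε hε
  set target := ∏ i, (Real.exp (-(lam i)) * lam i ^ (n i) / (n i).factorial) with htar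
  have hM1 : Tendsto (fun M : ℕ => ∏ i, (∑ j ∈ range (M + 1), (-1 : ℝ) ^ j * ((n i + j).choose (n i)) *
        (lam i ^ (n i + j) / (n i + j).factorial))) atTop (𝓝 target) :=
    tendsto_finsetProd _ fun i _ => lim_BA (n i) (lam i)
  have hM2 : Tendsto (fun M : ℕ => ∏ i, (1 + ((n i + M + 1).choose (n i) : ℝ) *
        (lam i ^ (n i + M + 1) / (n i + M + 1).factorial))) atTop (𝓝 1) := by
    have := tendsto_finsetProd (Finset.univ : Finset ι) (fun i (_ : i ∈ (Finset.univ : Finset ι)) =>
      (lim_BB (n i) (lam i)).const_add 1)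
    simpa using this
  obtain ⟨M, hM1', hM2'⟩ := (((Metric.tendsto_nhds.1 hM1) (ε / 4) (by positivity)).and
    ((Metric.tendsto_nhds.1 hM2) (ε / 4) (by positivity))).exists
  filter_upwards [(Metric.tendsto_nhds.1 (hA M)) (ε / 4) (by positivity),
    (Metric.tendsto_nhds.1 (hBt M)) (ε / 4) (by positivity)] with z h1 h2
  obtain ⟨B, hB'⟩ := hB z
  rw [hP z]
  have iA : Integrable (fun ω => ∏ i, BA M (n i) (N z i ω)) P := by
    have e : ∀ ω, ∏ i, BA M (n i) (N z i ω) = ∑ J ∈ Fintype.piFinset (fun _ : ι => range (M + 1)),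
        (∏ i, (-1 : ℝ) ^ (J i) * ((n i + J i).choose (n i))) * ∏ i, ((N z i ω).choose (n i + J i) : ℝ) := by
      intro ω
      unfold BA
      rw [Finset.prod_univ_sum]
      exact Finset.sum_congr rfl fun J _ => by rw [← Finset.prod_mul_distrib]
    simp_rw [e]
    exact integrable_finsetSum _ fun J _ => (int_choose (hN z) hB' _).const_mul _
  have iB : Integrable (fun ω => ∏ i, (1 + BB M (n i) (N z i ω))) P := by
    refine Integrable.of_bound (C := ∏ i, (1 + ((n i + M + 1).choose (n i) : ℝ) * 2 ^ B)) ?_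
      (Eventually.of_forall fun ω => ?_)
    · refine Measurable.aestronglyMeasurable (Finset.measurable_prod _ fun i _ => ?_)
      exact (measurable_from_nat (f := fun x : ℕ => 1 + BB M (n i) x)).comp (hN z i)
    · rw [Real.norm_of_nonneg (Finset.prod_nonneg fun i _ => by have := BB_nonneg M (n i) (N z i ω); linarith)]
      refine Finset.prod_le_prod (fun i _ => by have := BB_nonneg M (n i) (N z i ω); linarith) fun i _ => ?_
      unfold BB
      have h1 : (N z i ω).choose (n i + M + 1) ≤ 2 ^ B :=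
        (Nat.choose_le_two_pow _ _).trans (Nat.pow_le_pow_right (by norm_num) (hB' i ω))
      have h2 : ((N z i ω).choose (n i + M + 1) : ℝ) ≤ 2 ^ B := by exact_mod_cast h1
      gcongr
  have iI : Integrable (fun ω => ∏ i, (if N z i ω = n i then (1 : ℝ) else 0)) P := by
    refine Integrable.of_bound (C := 1) ?_ (Eventually.of_forall fun ω => ?_)
    · refine Measurable.aestronglyMeasurable (Finset.measurable_prod _ fun i _ => ?_)
      exact (measurable_from_nat (f := fun x : ℕ => if x = n i then (1 : ℝ) else 0)).comp (hN z i)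
    · have h0 : ∀ i ∈ (Finset.univ : Finset ι), (0 : ℝ) ≤ (if N z i ω = n i then (1 : ℝ) else 0) :=
        fun i _ => by split_ifs <;> norm_num
      rw [Real.norm_of_nonneg (Finset.prod_nonneg h0)]
      exact Finset.prod_le_one h0 fun i _ => by split_ifs <;> norm_num
  have h3 : |∫ ω, ∏ i, (if N z i ω = n i then (1 : ℝ) else 0) ∂P - ∫ ω, ∏ i, BA M (n i) (N z i ω) ∂P| ≤
      ∫ ω, ∏ i, (1 + BB M (n i) (N z i ω)) ∂P - 1 := by
    rw [← integral_sub iI iA]
    have e1 : ∫ ω, ∏ i, (1 + BB M (n i) (N z i ω)) ∂P - 1 = ∫ ω, (∏ i, (1 + BB M (n i) (N z i ω)) - 1) ∂P := by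
      rw [integral_sub iB (integrable_const _)]
      simp
    rw [e1]
    refine (abs_integral_le_integral_abs).trans (integral_mono (iI.sub iA).abs (iB.sub (integrable_const _)) fun ω => ?_)
    exact prod_bonf Finset.univ _ _ _ (fun i _ => by split_ifs <;> norm_num)
      (fun i _ => by split_ifs <;> norm_num) (fun i _ => BB_nonneg _ _ _) (fun i _ => bonf M (n i) (N z i ω))
  rw [Real.dist_eq] at *
  have h5 := (abs_lt.1 h2).2
  have h6 := (abs_lt.1 hM2').2
  have h7 := abs_le.1 h3
  have h8 := abs_lt.1 h1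
  have h9 := abs_lt.1 hM1'
  rw [abs_lt]
  constructor <;> linarith [h7.1, h7.2, h8.1, h8.2, h9.1, h9.2]

end

end Pool.Agent.Helper18K9.PL
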