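import Mathlib

set_option autoImplicit false

/-!
# Interpolation at the reciprocals of integers, with bounds for the coefficients
-/

namespace Pool.Agent.Helper18K9.PL

open Polynomial Finset

lemma coeff_prod_bound {ι : Type} [DecidableEq ι] (t : Finset ι) (α y : ι → ℝ) {R : ℝ} (hR : 0 ≤ R)
    (hα : ∀ i ∈ t, |α i| ≤ R) (hy : ∀ i ∈ t, |y i| ≤ 1) :
    ∀ n : ℕ, |(∏ i ∈ t, (C (α i) * (X - C (y i)))).coeff n| ≤ (2 * R) ^ t.card := by
  induction t using Finset.induction_on with
  | empty =>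
    intro n
    simp only [Finset.prod_empty, Finset.card_empty, pow_zero, coeff_one]
    split_ifs <;> norm_num
  | insert i t hi ih =>
    intro n
    rw [Finset.prod_insert hi, Finset.card_insert_of_notMem hi, mul_assoc, coeff_C_mul, sub_mul,
      coeff_sub, coeff_C_mul]
    have ih' := ih (fun j hj => hα j (Finset.mem_insert_of_mem hj))
      (fun j hj => hy j (Finset.mem_insert_of_mem hj))
    set P := ∏ i ∈ t, (C (α i) * (X - C (y i))) with hP
    have h1 : |(X * P).coeff n| ≤ (2 * R) ^ t.card := by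
      rcases n with _ | n
      · rw [mul_coeff_zero, coeff_X_zero, zero_mul, abs_zero]
        positivity
      · rw [coeff_X_mul]
        exact ih' n
    have h2 : |y i * P.coeff n| ≤ (2 * R) ^ t.card := by
      rw [abs_mul]
      calc |y i| * |P.coeff n| ≤ 1 * (2 * R) ^ t.card :=
            mul_le_mul (hy i (Finset.mem_insert_self _ _)) (ih' n) (abs_nonneg _) zero_le_one
        _ = _ := one_mul _
    rw [abs_mul]
    calc |α i| * |(X * P).coeff n - y i * P.coeff n| ≤ R * ((2 * R) ^ t.card + (2 * R) ^ t.card) :=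
          mul_le_mul (hα i (Finset.mem_insert_self _ _)) ((abs_sub _ _).trans (add_le_add h1 h2))
            (abs_nonneg _) hR
      _ = _ := by ring

/-- the reciprocals of distinct positive integers are well separated -/
lemma recip_sep {p q : ℕ} (hp : 1 ≤ p) (hq : 1 ≤ q) (hpq : p ≠ q) :
    |((p : ℝ)⁻¹ - (q : ℝ)⁻¹)⁻¹| ≤ 2 * (p : ℝ) ^ 2 := by
  have hp0 : (1 : ℝ) ≤ p := by exact_mod_cast hp
  have hq0 : (1 : ℝ) ≤ q := by exact_mod_cast hq
  have e : (p : ℝ)⁻¹ - (q : ℝ)⁻¹ = (q - p) / (p * q) := by field_simp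
  rw [e, inv_div, abs_div, abs_of_pos (by positivity : (0 : ℝ) < p * q)]
  rcases lt_or_gt_of_ne hpq with h | h
  · have h1 : (p : ℝ) + 1 ≤ q := by exact_mod_cast h
    rw [abs_of_pos (by linarith), div_le_iff₀ (by linarith)]
    -- p q ≤ 2 p^2 (q - p)
    have h2 : (q : ℝ) ≤ 2 * p * (q - p) := by nlinarith
    nlinarith
  · have h1 : (q : ℝ) + 1 ≤ p := by exact_mod_cast h
    rw [abs_of_neg (by linarith), div_le_iff₀ (by linarith)]
    nlinarith

/-- **Interpolation.** -/
theorem lag (m : ℕ) (S : Finset ℕ) (hpos : ∀ q ∈ S, 1 ≤ q) (w : ℕ → ℝ) {u : ℝ} (_hu : 0 ≤ u)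
    (hw : ∀ q ∈ S, |w q| * (q : ℝ) ^ m * (4 * (q : ℝ) ^ 2) ^ S.card ≤ u) :
    ∃ v : ℕ → ℝ, (∀ q ∈ S, ∑ j ∈ Finset.range S.card, v j * ((q : ℝ) ^ (m + j))⁻¹ = w q) ∧
      ∀ j, |v j| ≤ S.card * u := by
  set x : ℕ → ℝ := fun q => (q : ℝ)⁻¹ with hx
  have hinj : Set.InjOn x S := by
    intro p _ q _ h
    simp only [hx] at h
    exact_mod_cast inv_injective h
  set Q := Lagrange.interpolate S x (fun q => w q * (q : ℝ) ^ m) with hQ
  refine ⟨fun j => Q.coeff j, fun q hq => ?_, fun j => ?_⟩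
  · have h1 : Q.eval (x q) = w q * (q : ℝ) ^ m := Lagrange.eval_interpolate_at_node _ hinj hq
    have h2 : Q.degree < S.card := Lagrange.degree_interpolate_lt _ hinj
    have h3 : Q.natDegree < S.card := by
      have hc : 0 < S.card := Finset.card_pos.2 ⟨q, hq⟩
      by_cases h0 : Q = 0
      · rw [h0, natDegree_zero]; exact hc
      · exact (natDegree_lt_iff_degree_lt h0).2 h2
    rw [Polynomial.eval_eq_sum_range' h3] at h1
    have hq0 : (q : ℝ) ≠ 0 := by
      have := hpos q hq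
      positivity
    calc ∑ j ∈ Finset.range S.card, Q.coeff j * ((q : ℝ) ^ (m + j))⁻¹ =
        (∑ j ∈ Finset.range S.card, Q.coeff j * x q ^ j) * ((q : ℝ) ^ m)⁻¹ := by
          rw [Finset.sum_mul]
          refine Finset.sum_congr rfl fun j _ => ?_
          simp only [hx]
          rw [pow_add, mul_inv, inv_pow]
          ring
      _ = w q := by rw [h1]; field_simp
  · show |Q.coeff j| ≤ _
    rw [hQ, Lagrange.interpolate_apply, finset_sum_coeff]
    refine (Finset.abs_sum_le_sum_abs _ _).trans ?_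
    rw [← nsmul_eq_mul, ← Finset.sum_const]
    refine Finset.sum_le_sum fun i hi => ?_
    rw [coeff_C_mul, abs_mul]
    have hi1 := hpos i hi
    have hi1' : (1 : ℝ) ≤ i := by exact_mod_cast hi1
    have h4 : |(Lagrange.basis S x i).coeff j| ≤ (4 * (i : ℝ) ^ 2) ^ S.card := by
      have h5 := coeff_prod_bound (S.erase i) (fun b => (x i - x b)⁻¹) x (R := 2 * (i : ℝ) ^ 2)
        (by positivity) (fun b hb => ?_) (fun b hb => ?_) j
      · have h6 : Lagrange.basis S x i = ∏ b ∈ S.erase i, (C ((x i - x b)⁻¹) * (X - C (x b))) := rfl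
        rw [h6]
        refine h5.trans ?_
        calc (2 * (2 * (i : ℝ) ^ 2)) ^ (S.erase i).card = (4 * (i : ℝ) ^ 2) ^ (S.erase i).card := by
              congr 1; ring
          _ ≤ _ := pow_le_pow_right₀ (by nlinarith) (Finset.card_le_card (Finset.erase_subset _ _))
      · rw [Finset.mem_erase] at hb
        exact recip_sep hi1 (hpos b hb.2) (fun h => hb.1 h.symm)
      · rw [Finset.mem_erase] at hb
        have hb1 : (1 : ℝ) ≤ b := by exact_mod_cast hpos b hb.2
        simp only [hx]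
        rw [abs_of_pos (by positivity)]
        exact inv_le_one_of_one_le₀ hb1
    calc |w i * (i : ℝ) ^ m| * |(Lagrange.basis S x i).coeff j| ≤
        |w i * (i : ℝ) ^ m| * (4 * (i : ℝ) ^ 2) ^ S.card := by gcongr
      _ = |w i| * (i : ℝ) ^ m * (4 * (i : ℝ) ^ 2) ^ S.card := by
          rw [abs_mul, abs_of_nonneg (by positivity : (0 : ℝ) ≤ (i : ℝ) ^ m)]
      _ ≤ u := hw i hi

end Pool.Agent.Helper18K9.PL
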