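import Mathlib
import Pool.Agent.Helper18K9.PL.Lag

set_option autoImplicit false

/-!
Correlations in a family with `k` parameters: comparison of the integral over a box with the
integral of the product of the window means.
-/

namespace Pool.Agent.Helper18K9.PL

open Finset Filter Topology MeasureTheory

/-- the linear form attached to `q` -/
noncomputable def Lin (m : ℕ) {k : ℕ} (q : ℕ) (x : Fin k → ℝ) : ℝ :=
  ∑ j : Fin k, x j * ((q : ℝ) ^ (m + (j : ℕ)))⁻¹

lemma Lin_add (m : ℕ) {k : ℕ} (q : ℕ) (x y : Fin k → ℝ) : Lin m q (x + y) = Lin m q x + Lin m q y := by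
  unfold Lin
  rw [← Finset.sum_add_distrib]
  exact Finset.sum_congr rfl fun j _ => by rw [Pi.add_apply]; ring

lemma measurable_Lin (m : ℕ) {k : ℕ} (q : ℕ) : Measurable (fun x : Fin k → ℝ => Lin m q x) := by
  unfold Lin
  fun_prop

lemma integrable_of_bdd {α : Type} [MeasurableSpace α] {μ : Measure α} [IsFiniteMeasure μ]
    {f : α → ℝ} (hf : Measurable f) (h0 : ∀ z, 0 ≤ f z) {C : ℝ} (h1 : ∀ z, f z ≤ C) :
    Integrable f μ := by
  refine Integrable.of_bound hf.aestronglyMeasurable C (Eventually.of_forall fun z => ?_)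
  rw [Real.norm_of_nonneg (h0 z)]
  exact h1 z

/-- translation of a domain of integration -/
lemma shift_le {k : ℕ} {D D' : Set (Fin k → ℝ)} (hS : MeasurableSet D) (hS' : MeasurableSet D')
    (hfin : volume D' ≠ ⊤) (hfin0 : volume D ≠ ⊤) {f : (Fin k → ℝ) → ℝ} (hf : Measurable f)
    (h0 : ∀ z, 0 ≤ f z) (h1 : ∀ z, f z ≤ 1) (v : Fin k → ℝ) (h : ∀ z ∈ D, z + v ∈ D') :
    ∫ z in D, f (z + v) ≤ ∫ z in D', f z := by
  have hi : Integrable (D'.indicator f) volume := by
    rw [integrable_indicator_iff hS']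
    have : IsFiniteMeasure (volume.restrict D') := ⟨by
      rw [Measure.restrict_apply_univ]; exact lt_top_iff_ne_top.2 hfin⟩
    exact integrable_of_bdd hf h0 h1
  have hi2 : Integrable (fun z => D'.indicator f (z + v)) volume := hi.comp_add_right v
  have hi3 : Integrable (D.indicator (fun z => f (z + v))) volume := by
    rw [integrable_indicator_iff hS]
    have : IsFiniteMeasure (volume.restrict D) := ⟨by
      rw [Measure.restrict_apply_univ]; exact lt_top_iff_ne_top.2 hfin0⟩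
    exact integrable_of_bdd (hf.comp (measurable_add_const v)) (fun z => h0 _) (fun z => h1 _)
  rw [← integral_indicator hS, ← integral_indicator hS',
    ← integral_add_right_eq_self (μ := (volume : Measure (Fin k → ℝ))) (D'.indicator f) v]
  refine integral_mono hi3 hi2 fun z => ?_
  by_cases hz : z ∈ D
  · rw [Set.indicator_of_mem hz, Set.indicator_of_mem (h z hz)]
  · rw [Set.indicator_of_notMem hz]
    exact Set.indicator_nonneg (fun z _ => h0 z) _

/-- the product of the shifted indicators -/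
noncomputable def FP (m : ℕ) {k : ℕ} (S : Finset ℕ) (h : ℕ → ℝ → ℝ) (w : S → ℝ) (x : Fin k → ℝ) : ℝ :=
  ∏ i : S, h i (Lin m i x + w i)

/-- the product of the integrals over the windows -/
noncomputable def GP (m : ℕ) {k : ℕ} (S : Finset ℕ) (h : ℕ → ℝ → ℝ) (L : ℕ → ℝ) (x : Fin k → ℝ) : ℝ :=
  ∏ i : S, ∫ t in Set.Ioc 0 (L i), h i (Lin m i x + t)

section

variable {m k : ℕ} {S : Finset ℕ} {h : ℕ → ℝ → ℝ} (hm : ∀ q, Measurable (h q))
  (h0 : ∀ q t, 0 ≤ h q t) (h1 : ∀ q t, h q t ≤ 1)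

include h0 in
lemma FP_nonneg (w : S → ℝ) (x : Fin k → ℝ) : 0 ≤ FP m S h w x :=
  Finset.prod_nonneg fun i _ => h0 _ _

include h0 h1 in
lemma FP_le_one (w : S → ℝ) (x : Fin k → ℝ) : FP m S h w x ≤ 1 :=
  Finset.prod_le_one (fun i _ => h0 _ _) fun i _ => h1 _ _

include hm in
lemma measurable_FP2 : Measurable (fun z : (S → ℝ) × (Fin k → ℝ) => FP m S h z.1 z.2) := by
  unfold FP
  refine Finset.measurable_prod _ fun i _ => (hm i).comp ?_
  exact ((measurable_Lin m _).comp measurable_snd).add ((measurable_pi_apply i).comp measurable_fst)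

include hm in
lemma measurable_FP (w : S → ℝ) : Measurable (fun x : Fin k → ℝ => FP m S h w x) :=
  (measurable_FP2 hm).comp (measurable_const.prodMk measurable_id)

lemma FP_add (w : S → ℝ) (x v : Fin k → ℝ) (w' : S → ℝ) (hv : ∀ i : S, Lin m i v = w' i) :
    FP m S h w (x + v) = FP m S h (fun i => w i + w' i) x := by
  unfold FP
  refine Finset.prod_congr rfl fun i _ => ?_
  rw [Lin_add, hv i]
  congr 1
  ring

lemma vol_cube {L : ℕ → ℝ} (hL : ∀ q, 0 < L q) :
    (volume : Measure (S → ℝ)).real (Set.univ.pi fun i : S => Set.Ioc 0 (L i)) = ∏ i : S, L i := by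
  rw [Measure.real, volume_pi_pi, ENNReal.toReal_prod]
  refine Finset.prod_congr rfl fun i _ => ?_
  rw [Real.volume_Ioc, sub_zero, ENNReal.toReal_ofReal (hL i).le]

lemma vol_cube_ne {L : ℕ → ℝ} :
    (volume : Measure (S → ℝ)) (Set.univ.pi fun i : S => Set.Ioc 0 (L i)) ≠ ⊤ := by
  rw [volume_pi_pi]
  exact ENNReal.prod_ne_top fun i _ => by simp

include hm h0 h1 in
lemma swap {L : ℕ → ℝ} {D : Set (Fin k → ℝ)} (hfin : volume D ≠ ⊤) :
    ∫ w in Set.univ.pi (fun i : S => Set.Ioc 0 (L i)), (∫ x in D, FP m S h w x) =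
      ∫ x in D, GP m S h L x := by
  have : IsFiniteMeasure (volume.restrict D) := ⟨by
      rw [Measure.restrict_apply_univ]; exact lt_top_iff_ne_top.2 hfin⟩
  have : IsFiniteMeasure ((volume : Measure (S → ℝ)).restrict (Set.univ.pi (fun i : S => Set.Ioc 0 (L i)))) := ⟨by
      rw [Measure.restrict_apply_univ]; exact lt_top_iff_ne_top.2 vol_cube_ne⟩
  rw [integral_integral_swap]
  · refine integral_congr_ae (Eventually.of_forall fun x => ?_)
    change ∫ w in Set.univ.pi (fun i : S => Set.Ioc 0 (L i)), FP m S h w x = _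
    unfold FP GP
    rw [volume_pi, Measure.restrict_pi_pi,
      integral_fintype_prod_eq_prod (f := fun (i : S) t => h i (Lin m i x + t))]
  · exact integrable_of_bdd (measurable_FP2 hm) (fun r => FP_nonneg h0 _ _)
      (C := 1) (fun r => FP_le_one h0 h1 _ _)

include hm h0 h1 in
lemma inner_int {L : ℕ → ℝ} {D : Set (Fin k → ℝ)} (hfin : volume D ≠ ⊤) :
    IntegrableOn (fun w : S → ℝ => ∫ x in D, FP m S h w x)
      (Set.univ.pi (fun i : S => Set.Ioc 0 (L i))) volume := by
  have : IsFiniteMeasure (volume.restrict D) := ⟨by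
      rw [Measure.restrict_apply_univ]; exact lt_top_iff_ne_top.2 hfin⟩
  have : IsFiniteMeasure ((volume : Measure (S → ℝ)).restrict (Set.univ.pi (fun i : S => Set.Ioc 0 (L i)))) := ⟨by
      rw [Measure.restrict_apply_univ]; exact lt_top_iff_ne_top.2 vol_cube_ne⟩
  have h := (integrable_of_bdd (μ := ((volume : Measure (S → ℝ)).restrict (Set.univ.pi (fun i : S => Set.Ioc 0 (L i)))).prod
    (volume.restrict D)) (measurable_FP2 (m := m) (k := k) hm) (fun r => FP_nonneg h0 _ _)
      (C := 1) (fun r => FP_le_one h0 h1 _ _))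
  exact h.integral_prod_left

/-- existence of a small translation that moves the linear forms by prescribed amounts -/
lemma exists_shift (hS : S.card = k) (hpos : ∀ q ∈ S, 1 ≤ q) {L : ℕ → ℝ} {ξ : ℝ} (hξ : 0 ≤ ξ)
    (hL : ∀ q ∈ S, (k : ℝ) * (L q * (q : ℝ) ^ m * (4 * (q : ℝ) ^ 2) ^ k) ≤ ξ) {w : S → ℝ}
    (hw : w ∈ Set.univ.pi (fun i : S => Set.Ioc 0 (L i))) :
    ∃ v : Fin k → ℝ, (∀ i : S, Lin m i v = w i) ∧ ∀ j, |v j| ≤ ξ := by
  classical
  rcases Nat.eq_zero_or_pos k with hk | hk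
  · subst hk
    rw [Finset.card_eq_zero] at hS
    refine ⟨fun _ => 0, fun i => ?_, fun j => j.elim0⟩
    have := i.2
    simp [hS] at this
  have hk0 : (0 : ℝ) < k := by exact_mod_cast hk
  obtain ⟨v, hv1, hv2⟩ := lag m S hpos (fun q => if hq : q ∈ S then w ⟨q, hq⟩ else 0) (u := ξ / k)
    (by positivity) (fun q hq => by
      simp only [hq, dif_pos, hS]
      have h3 := hw ⟨q, hq⟩ (Set.mem_univ _)
      rw [abs_of_pos h3.1, le_div_iff₀ hk0]
      have h4 : w ⟨q, hq⟩ * (q : ℝ) ^ m * (4 * (q : ℝ) ^ 2) ^ k ≤ L q * (q : ℝ) ^ m * (4 * (q : ℝ) ^ 2) ^ k := by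
        have := h3.2
        gcongr
      nlinarith [hL q hq])
  refine ⟨fun j => v j, fun i => ?_, fun j => ?_⟩
  · have h5 := hv1 i i.2
    rw [hS] at h5
    simp only [i.2, dif_pos] at h5
    unfold Lin
    rw [← h5, Finset.sum_range]
  · have h6 := hv2 j
    rw [hS] at h6
    refine h6.trans (le_of_eq ?_)
    field_simp

include hm h0 h1 in
/-- lower comparison -/
lemma GP_le (hS : S.card = k) (hpos : ∀ q ∈ S, 1 ≤ q) {L : ℕ → ℝ} (hL0 : ∀ q, 0 < L q) {ξ : ℝ}
    (hξ : 0 ≤ ξ) (hL : ∀ q ∈ S, (k : ℝ) * (L q * (q : ℝ) ^ m * (4 * (q : ℝ) ^ 2) ^ k) ≤ ξ)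
    {D D' : Set (Fin k → ℝ)} (hD : MeasurableSet D) (hD' : MeasurableSet D')
    (hfin' : volume D' ≠ ⊤) (hfin : volume D ≠ ⊤)
    (hDD : ∀ z ∈ D, ∀ v : Fin k → ℝ, (∀ j, |v j| ≤ ξ) → z + v ∈ D') :
    ∫ x in D, GP m S h L x ≤ (∏ i : S, L i) * ∫ x in D', FP m S h 0 x := by
  have e1 := swap (m := m) (S := S) (L := L) hm h0 h1 hfin
  have hq : MeasurableSet (Set.univ.pi (fun i : S => Set.Ioc 0 (L i))) :=
    MeasurableSet.univ_pi fun _ => measurableSet_Ioc
  have h2 : ∫ w in Set.univ.pi (fun i : S => Set.Ioc 0 (L i)), (∫ x in D, FP m S h w x) ≤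
      ∫ _w in Set.univ.pi (fun i : S => Set.Ioc 0 (L i)), (∫ x in D', FP m S h 0 x) := by
    refine setIntegral_mono_on (inner_int hm h0 h1 hfin)
      ((integrableOn_const (C := ∫ x in D', FP m S h 0 x) vol_cube_ne)) hq fun w hw => ?_
    obtain ⟨v, hv1, hv2⟩ := exists_shift hS hpos hξ hL hw
    have h3 := shift_le hD hD' hfin' hfin (f := fun z => FP m S h 0 z) (measurable_FP hm 0)
      (FP_nonneg h0 0) (FP_le_one h0 h1 0) v (fun z hz => hDD z hz v hv2)
    simp only [FP_add _ _ _ w hv1] at h3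
    simpa using h3
  rw [e1, setIntegral_const, vol_cube hL0, smul_eq_mul] at h2
  exact h2

include hm h0 h1 in
/-- upper comparison -/
lemma FP_le (hS : S.card = k) (hpos : ∀ q ∈ S, 1 ≤ q) {L : ℕ → ℝ} (hL0 : ∀ q, 0 < L q) {ξ : ℝ}
    (hξ : 0 ≤ ξ) (hL : ∀ q ∈ S, (k : ℝ) * (L q * (q : ℝ) ^ m * (4 * (q : ℝ) ^ 2) ^ k) ≤ ξ)
    {D D' : Set (Fin k → ℝ)} (hD : MeasurableSet D) (hD' : MeasurableSet D')
    (hfin' : volume D' ≠ ⊤) (hfin : volume D ≠ ⊤)
    (hDD : ∀ z ∈ D, ∀ v : Fin k → ℝ, (∀ j, |v j| ≤ ξ) → z + v ∈ D') :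
    (∏ i : S, L i) * ∫ x in D, FP m S h 0 x ≤ ∫ x in D', GP m S h L x := by
  have e1 := swap (m := m) (S := S) (L := L) hm h0 h1 hfin'
  have hq : MeasurableSet (Set.univ.pi (fun i : S => Set.Ioc 0 (L i))) :=
    MeasurableSet.univ_pi fun _ => measurableSet_Ioc
  have h2 : ∫ _w in Set.univ.pi (fun i : S => Set.Ioc 0 (L i)), (∫ x in D, FP m S h 0 x) ≤
      ∫ w in Set.univ.pi (fun i : S => Set.Ioc 0 (L i)), (∫ x in D', FP m S h w x) := by
    refine setIntegral_mono_on ((integrableOn_const (C := ∫ x in D, FP m S h 0 x) vol_cube_ne))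
      (inner_int hm h0 h1 hfin') hq fun w hw => ?_
    obtain ⟨v, hv1, hv2⟩ := exists_shift hS hpos hξ hL hw
    have h3 := shift_le hD hD' hfin' hfin (f := fun z => FP m S h 0 (z + v))
      ((measurable_FP hm 0).comp (measurable_add_const _)) (fun z => FP_nonneg h0 0 _)
      (fun z => FP_le_one h0 h1 0 _) (-v) (fun z hz => hDD z hz _ (by simpa using hv2))
    simp only [neg_add_cancel_right] at h3
    simp only [FP_add _ _ _ w hv1] at h3
    simpa using h3
  rw [e1, setIntegral_const, vol_cube hL0, smul_eq_mul] at h2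
  exact h2

end

/-- a box -/
def Bx {k : ℕ} (r : Fin k → ℝ) : Set (Fin k → ℝ) := Set.Icc (fun j => -(r j)) r

lemma measurableSet_Bx {k : ℕ} (r : Fin k → ℝ) : MeasurableSet (Bx r) := measurableSet_Icc

lemma vol_Bx_ne {k : ℕ} (r : Fin k → ℝ) : volume (Bx r) ≠ ⊤ := by
  unfold Bx
  rw [Real.volume_Icc_pi]
  exact ENNReal.prod_ne_top fun i _ => by simp

lemma vol_Bx {k : ℕ} {r : Fin k → ℝ} (hr : ∀ j, 0 ≤ r j) :
    (volume : Measure (Fin k → ℝ)).real (Bx r) = ∏ j, (2 * r j) := by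
  unfold Bx
  rw [Measure.real, Real.volume_Icc_pi_toReal (fun j => by linarith [hr j])]
  exact Finset.prod_congr rfl fun j _ => by ring

lemma mem_Bx {k : ℕ} {r x : Fin k → ℝ} : x ∈ Bx r ↔ ∀ j, |x j| ≤ r j := by
  unfold Bx
  rw [Set.mem_Icc, Pi.le_def, Pi.le_def]
  constructor
  · rintro ⟨a, b⟩ j; exact abs_le.2 ⟨a j, b j⟩
  · intro h; exact ⟨fun j => (abs_le.1 (h j)).1, fun j => (abs_le.1 (h j)).2⟩

/-- the uniform distribution on a box -/
noncomputable def Un {k : ℕ} (r : Fin k → ℝ) : Measure (Fin k → ℝ) :=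
  Measure.pi fun j => ProbabilityTheory.cond volume (Set.Icc (-(r j)) (r j))

lemma Un_eq {k : ℕ} {r : Fin k → ℝ} (hr : ∀ j, 0 < r j) :
    Un r = ENNReal.ofReal ((∏ j, (2 * r j))⁻¹) • (volume : Measure (Fin k → ℝ)).restrict (Bx r) := by
  unfold Un
  have hI : ∀ j, volume (Set.Icc (-(r j)) (r j)) = ENNReal.ofReal (2 * r j) := fun j => by
    rw [Real.volume_Icc]; congr 1; ring
  have hprob : ∀ j, IsProbabilityMeasure (ProbabilityTheory.cond volume (Set.Icc (-(r j)) (r j))) := by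
    intro j
    refine ProbabilityTheory.cond_isProbabilityMeasure_of_finite ?_ ?_
    · rw [hI, ne_eq, ENNReal.ofReal_eq_zero, not_le]; linarith [hr j]
    · rw [hI]; exact ENNReal.ofReal_ne_top
  refine Measure.pi_eq fun s hs => ?_
  have hB : Bx r = Set.univ.pi fun j => Set.Icc (-(r j)) (r j) := by
    unfold Bx; rw [Set.pi_univ_Icc]
  rw [hB, volume_pi, Measure.restrict_pi_pi, Measure.smul_apply, Measure.pi_pi, smul_eq_mul,
    ← Finset.prod_inv_distrib, ENNReal.ofReal_prod_of_nonneg (fun j _ => by have := hr j; positivity),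
    ← Finset.prod_mul_distrib]
  refine Finset.prod_congr rfl fun j _ => ?_
  rw [ProbabilityTheory.cond_apply measurableSet_Icc, hI, Measure.restrict_apply (hs j), Set.inter_comm,
    ENNReal.ofReal_inv_of_pos (by linarith [hr j])]

lemma Un_prob {k : ℕ} {r : Fin k → ℝ} (hr : ∀ j, 0 < r j) : IsProbabilityMeasure (Un r) := by
  unfold Un
  have hI : ∀ j, volume (Set.Icc (-(r j)) (r j)) = ENNReal.ofReal (2 * r j) := fun j => by
    rw [Real.volume_Icc]; congr 1; ring
  have hprob : ∀ j, IsProbabilityMeasure (ProbabilityTheory.cond volume (Set.Icc (-(r j)) (r j))) := by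
    intro j
    refine ProbabilityTheory.cond_isProbabilityMeasure_of_finite ?_ ?_
    · rw [hI, ne_eq, ENNReal.ofReal_eq_zero, not_le]; linarith [hr j]
    · rw [hI]; exact ENNReal.ofReal_ne_top
  infer_instance

lemma integral_Un {k : ℕ} {r : Fin k → ℝ} (hr : ∀ j, 0 < r j) (f : (Fin k → ℝ) → ℝ) :
    ∫ x, f x ∂(Un r) = (∏ j, (2 * r j))⁻¹ * ∫ x in Bx r, f x := by
  have h : 0 < ∏ j, (2 * r j) := Finset.prod_pos fun j _ => by linarith [hr j]
  rw [Un_eq hr, integral_smul_measure, ENNReal.toReal_ofReal (by positivity), smul_eq_mul]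

section

variable {m k : ℕ} {S : Finset ℕ} {h : ℕ → ℝ → ℝ} (hm : ∀ q, Measurable (h q))
  (h0 : ∀ q t, 0 ≤ h q t) (h1 : ∀ q t, h q t ≤ 1)

include hm in
lemma measurable_GP (L : ℕ → ℝ) : Measurable (fun x : Fin k → ℝ => GP m S h L x) := by
  unfold GP
  refine Finset.measurable_prod _ fun i _ => ?_
  refine (StronglyMeasurable.integral_prod_right' (f := fun z : (Fin k → ℝ) × ℝ => h i (Lin m i z.1 + z.2)) ?_).measurable
  refine Measurable.stronglyMeasurable ?_
  exact (hm i).comp (((measurable_Lin m _).comp measurable_fst).add measurable_snd)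

include h0 in
lemma GP_nonneg (L : ℕ → ℝ) (x : Fin k → ℝ) : 0 ≤ GP m S h L x :=
  Finset.prod_nonneg fun i _ => integral_nonneg fun t => h0 _ _

include hm h0 h1 in
/-- **Correlation bounds in a box.** -/
theorem box_bounds (hS : S.card = k) (hpos : ∀ q ∈ S, 1 ≤ q) {L : ℕ → ℝ} (hL0 : ∀ q, 0 < L q) {ξ : ℝ}
    (hξ : 0 ≤ ξ) (hL : ∀ q ∈ S, (k : ℝ) * (L q * (q : ℝ) ^ m * (4 * (q : ℝ) ^ 2) ^ k) ≤ ξ)
    {r : Fin k → ℝ} (hr : ∀ j, 0 < r j) (hξr : ∀ j, ξ ≤ r j) {lo hi : ℕ → ℝ} (hlo0 : ∀ q ∈ S, 0 ≤ lo q)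
    (hhi0 : ∀ q ∈ S, 0 ≤ hi q)
    (hlo : ∀ q ∈ S, ∀ x : Fin k → ℝ, (∀ j, |x j| ≤ 2 * r j) →
      lo q * L q ≤ ∫ t in Set.Ioc 0 (L q), h q (Lin m q x + t))
    (hhi : ∀ q ∈ S, ∀ x : Fin k → ℝ, (∀ j, |x j| ≤ 2 * r j) →
      ∫ t in Set.Ioc 0 (L q), h q (Lin m q x + t) ≤ hi q * L q) :
    (∏ j, (1 - ξ / r j)) * ∏ q ∈ S, lo q ≤ ∫ x, FP m S h 0 x ∂(Un r) ∧
      ∫ x, FP m S h 0 x ∂(Un r) ≤ (∏ j, (1 + ξ / r j)) * ∏ q ∈ S, hi q := by
  have hLp : 0 < ∏ i : S, L i := Finset.prod_pos fun i _ => hL0 _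
  have hrp : 0 < ∏ j, (2 * r j) := Finset.prod_pos fun j _ => by linarith [hr j]
  rw [integral_Un hr]
  constructor
  · -- lower bound
    set r' : Fin k → ℝ := fun j => r j - ξ with hr'
    have hr'0 : ∀ j, 0 ≤ r' j := fun j => by simp only [hr']; linarith [hξr j]
    have e1 := GP_le (m := m) hm h0 h1 hS hpos hL0 hξ hL (measurableSet_Bx r') (measurableSet_Bx r)
      (vol_Bx_ne _) (vol_Bx_ne _) (fun z hz v hv => by
        rw [mem_Bx] at hz ⊢
        intro j
        have a := hz j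
        have b := hv j
        simp only [hr'] at a
        rw [Pi.add_apply]
        exact (abs_add_le _ _).trans (by linarith))
    have e2 : (∏ j, (2 * r' j)) * ∏ i : S, (lo i * L i) ≤ ∫ x in Bx r', GP m S h L x := by
      have : IsFiniteMeasure (volume.restrict (Bx r')) := ⟨by
        rw [Measure.restrict_apply_univ]; exact lt_top_iff_ne_top.2 (vol_Bx_ne _)⟩
      have h3 : ∫ _x in Bx r', (∏ i : S, (lo i * L i)) ≤ ∫ x in Bx r', GP m S h L x := by
        refine setIntegral_mono_on (integrableOn_const (vol_Bx_ne _)) ?_ (measurableSet_Bx _) fun x hx => ?_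
        · refine integrable_of_bdd (measurable_GP hm L) (GP_nonneg h0 L) (C := ∏ i : S, L i) fun x => ?_
          refine Finset.prod_le_prod (fun i _ => integral_nonneg fun t => h0 _ _) fun i _ => ?_
          calc ∫ t in Set.Ioc 0 (L i), h i (Lin m i x + t) ≤ ∫ t in Set.Ioc 0 (L i), (1 : ℝ) := by
                refine setIntegral_mono_on ?_ (integrableOn_const (by simp)) measurableSet_Ioc fun t _ => h1 _ _
                exact integrable_of_bdd ((hm i).comp (measurable_const_add _)) (fun t => h0 _ _) (C := 1) (fun t => h1 _ _)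
            _ = L i := by simp [(hL0 i).le]
        · refine Finset.prod_le_prod (fun i _ => mul_nonneg (hlo0 i i.2) (hL0 i).le) fun i _ => ?_
          refine hlo i i.2 x fun j => ?_
          rw [mem_Bx] at hx
          have := hx j
          simp only [hr'] at this
          linarith [hr j]
      rw [setIntegral_const, vol_Bx hr'0, smul_eq_mul] at h3
      exact h3
    have e3 := e2.trans e1
    have e4 : (∏ j, (2 * r' j)) * ∏ i : S, (lo i * L i) =
        ((∏ j, (2 * r j)) * ((∏ j, (1 - ξ / r j)) * ∏ q ∈ S, lo q)) * ∏ i : S, L i := by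
      have e6 : ∏ i : S, (lo i * L i) = (∏ q ∈ S, lo q) * ∏ i : S, L i := by
        rw [Finset.prod_mul_distrib, Finset.prod_coe_sort S lo]
      rw [e6]
      have : ∏ j, (2 * r' j) = (∏ j, (2 * r j)) * ∏ j, (1 - ξ / r j) := by
        rw [← Finset.prod_mul_distrib]
        refine Finset.prod_congr rfl fun j _ => ?_
        have := (hr j).ne'
        simp only [hr']
        field_simp
      rw [this]
      ring
    rw [e4, mul_comm (∏ i : S, L i)] at e3
    have e5 := le_of_mul_le_mul_right e3 hLp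
    rw [le_inv_mul_iff₀ hrp]
    exact e5
  · set r' : Fin k → ℝ := fun j => r j + ξ with hr'
    have hr'0 : ∀ j, 0 ≤ r' j := fun j => by simp only [hr']; linarith [hr j]
    have e1 := FP_le (m := m) hm h0 h1 hS hpos hL0 hξ hL (measurableSet_Bx r) (measurableSet_Bx r')
      (vol_Bx_ne _) (vol_Bx_ne _) (fun z hz v hv => by
        rw [mem_Bx] at hz ⊢
        intro j
        have a := hz j
        have b := hv j
        simp only [hr']
        rw [Pi.add_apply]
        exact (abs_add_le _ _).trans (by linarith))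
    have e2 : ∫ x in Bx r', GP m S h L x ≤ (∏ j, (2 * r' j)) * ∏ i : S, (hi i * L i) := by
      have : IsFiniteMeasure (volume.restrict (Bx r')) := ⟨by
        rw [Measure.restrict_apply_univ]; exact lt_top_iff_ne_top.2 (vol_Bx_ne _)⟩
      have h3 : ∫ x in Bx r', GP m S h L x ≤ ∫ _x in Bx r', (∏ i : S, (hi i * L i)) := by
        refine setIntegral_mono_on ?_ (integrableOn_const (vol_Bx_ne _)) (measurableSet_Bx _) fun x hx => ?_
        · refine integrable_of_bdd (measurable_GP hm L) (GP_nonneg h0 L) (C := ∏ i : S, L i) fun x => ?_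
          refine Finset.prod_le_prod (fun i _ => integral_nonneg fun t => h0 _ _) fun i _ => ?_
          calc ∫ t in Set.Ioc 0 (L i), h i (Lin m i x + t) ≤ ∫ t in Set.Ioc 0 (L i), (1 : ℝ) := by
                refine setIntegral_mono_on ?_ (integrableOn_const (by simp)) measurableSet_Ioc fun t _ => h1 _ _
                exact integrable_of_bdd ((hm i).comp (measurable_const_add _)) (fun t => h0 _ _) (C := 1) (fun t => h1 _ _)
            _ = L i := by simp [(hL0 i).le]
        · refine Finset.prod_le_prod (fun i _ => integral_nonneg fun t => h0 _ _) fun i _ => ?_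
          refine hhi i i.2 x fun j => ?_
          rw [mem_Bx] at hx
          have := hx j
          simp only [hr'] at this
          linarith [hr j, hξr j]
      rw [setIntegral_const, vol_Bx hr'0, smul_eq_mul] at h3
      exact h3
    have e3 := e1.trans e2
    have e4 : (∏ j, (2 * r' j)) * ∏ i : S, (hi i * L i) =
        (∏ i : S, L i) * ((∏ j, (2 * r j)) * ((∏ j, (1 + ξ / r j)) * ∏ q ∈ S, hi q)) := by
      have e6 : ∏ i : S, (hi i * L i) = (∏ q ∈ S, hi q) * ∏ i : S, L i := by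
        rw [Finset.prod_mul_distrib, Finset.prod_coe_sort S hi]
      rw [e6]
      have : ∏ j, (2 * r' j) = (∏ j, (2 * r j)) * ∏ j, (1 + ξ / r j) := by
        rw [← Finset.prod_mul_distrib]
        refine Finset.prod_congr rfl fun j _ => ?_
        have := (hr j).ne'
        simp only [hr']
        field_simp
      rw [this]
      ring
    rw [e4] at e3
    have e5 := le_of_mul_le_mul_left e3 hLp
    rw [inv_mul_le_iff₀ hrp]
    exact e5

end

end Pool.Agent.Helper18K9.PL
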