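import Mathlib
import Pool.Agent.Helper18K9.PL.Box
import Pool.Agent.Helper18K9.PL.Win

set_option autoImplicit false

/-!
Correlations of all orders for `k` parameters.
-/

namespace Pool.Agent.Helper18K9.PL

open Finset Filter Topology MeasureTheory
open Pool.Agent.H305R2 (ff ff_nonneg ff_le_one measurable_ff integrableOn_ff)

/-- the expected density of exponents at `q` -/
noncomputable def rho (a : ℝ) (q : ℕ) : ℝ :=
  Real.exp Real.eulerMascheroniConstant / a * (Real.log q / q)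

lemma rho_nonneg {a : ℝ} (ha : 0 < a) (q : ℕ) : 0 ≤ rho a q := by
  unfold rho
  have := Real.log_natCast_nonneg q
  positivity

lemma int_shift (q : ℕ) {l : ℝ} (hl : 0 ≤ l) (s b : ℝ) :
    ∫ t in Set.Ioc 0 l, ff q (s + t + b) = ∫ t in Set.Ioc (s + b) (s + b + l), ff q t := by
  rw [← intervalIntegral.integral_of_le hl, ← intervalIntegral.integral_of_le (by linarith)]
  have h := intervalIntegral.integral_comp_add_left (a := 0) (b := l) (fun t => ff q t) (s + b)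
  rw [add_zero] at h
  rw [← h]
  refine intervalIntegral.integral_congr fun t _ => ?_
  congr 1
  ring

lemma abs_Lin_le (m : ℕ) {k : ℕ} {q : ℕ} (hq : 1 ≤ q) (x : Fin k → ℝ) : |Lin m q x| ≤ ∑ j, |x j| := by
  unfold Lin
  refine (Finset.abs_sum_le_sum_abs _ _).trans (Finset.sum_le_sum fun j _ => ?_)
  have hq1 : (1 : ℝ) ≤ q := by exact_mod_cast hq
  rw [abs_mul, abs_of_pos (by positivity : (0 : ℝ) < ((q : ℝ) ^ (m + (j : ℕ)))⁻¹)]
  have : ((q : ℝ) ^ (m + (j : ℕ)))⁻¹ ≤ 1 := inv_le_one_of_one_le₀ (one_le_pow₀ hq1)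
  nlinarith [abs_nonneg (x j)]

lemma exists_delta (n : ℕ) {ε : ℝ} (hε : 0 < ε) : ∃ δ : ℝ, 0 < δ ∧ δ < 1 ∧ (1 + δ) ^ n ≤ 1 + ε ∧
    1 - ε ≤ (1 - δ) ^ n := by
  have h1 : Tendsto (fun δ : ℝ => (1 + δ) ^ n) (𝓝[>] 0) (𝓝 1) := by
    have : ContinuousAt (fun δ : ℝ => (1 + δ) ^ n) 0 := by fun_prop
    have h2 := this.tendsto.mono_left (nhdsWithin_le_nhds (s := Set.Ioi 0))
    simpa using h2
  have h2 : Tendsto (fun δ : ℝ => (1 - δ) ^ n) (𝓝[>] 0) (𝓝 1) := by
    have : ContinuousAt (fun δ : ℝ => (1 - δ) ^ n) 0 := by fun_prop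
    have h2 := this.tendsto.mono_left (nhdsWithin_le_nhds (s := Set.Ioi 0))
    simpa using h2
  have h3 := h1.eventually_lt_const (show (1 : ℝ) < 1 + ε by linarith)
  have h4 := h2.eventually_const_lt (show 1 - ε < 1 by linarith)
  have h5 : ∀ᶠ δ : ℝ in 𝓝[>] 0, δ < 1 :=
    (eventually_lt_nhds one_pos).filter_mono nhdsWithin_le_nhds
  obtain ⟨δ, hδ⟩ := ((self_mem_nhdsWithin (a := (0 : ℝ)) (s := Set.Ioi 0)) |>
    fun h => (h3.and (h4.and (h5.and h))).exists)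
  exact ⟨δ, hδ.2.2.2, hδ.2.2.1, hδ.1.le, hδ.2.1.le⟩

/-- **Correlations with `k` parameters.** -/
theorem core {a : ℝ} (ha : 0 < a) (m k : ℕ) {r : Fin k → ℝ} (hr : ∀ j, 0 < r j) {ε : ℝ} (hε : 0 < ε) :
    ∃ κ : ℝ, 0 < κ ∧ ∃ Z : ℕ, ∀ S : Finset ℕ, S.card = k → (∀ q ∈ S, Z ≤ q) →
      ∀ b : ℕ → ℝ, (∀ q ∈ S, |b q - a * q| ≤ κ * q) →
        |∫ x, (∏ i : S, ff i (Lin m i x + b i)) ∂(Un r) - ∏ q ∈ S, rho a q| ≤ ε * ∏ q ∈ S, rho a q := by
  set G := Real.exp Real.eulerMascheroniConstant with hG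
  have hG0 : 0 < G := Real.exp_pos _
  obtain ⟨δ, hδ0, hδ1, hδu, hδl⟩ := exists_delta (2 * k) hε
  -- window asymptotics
  set A := m + 2 * k + 1 with hA
  obtain ⟨η, hη, κ, hκ, P, hwin⟩ := win ha A (ε := δ * (G / a)) (by positivity)
  -- lower bound of the `r j`
  obtain ⟨ξ, hξ0, hξr⟩ : ∃ ξ : ℝ, 0 < ξ ∧ ∀ j, ξ ≤ δ * r j := by
    rcases Nat.eq_zero_or_pos k with hk | hk
    · subst hk
      exact ⟨1, one_pos, fun j => j.elim0⟩
    · have : Nonempty (Fin k) := ⟨⟨0, hk⟩⟩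
      obtain ⟨j0, hj0⟩ := Finite.exists_min r
      exact ⟨δ * r j0, mul_pos hδ0 (hr j0), fun j => mul_le_mul_of_nonneg_left (hj0 j) hδ0.le⟩
  have hcast := tendsto_natCast_atTop_atTop (R := ℝ)
  obtain ⟨Z1, hZ1⟩ := (hcast.eventually_ge_atTop ((k : ℝ) * 4 ^ k / ξ)).exists_forall_of_atTop
  obtain ⟨Z2, hZ2⟩ := (hcast.eventually_ge_atTop (η⁻¹)).exists_forall_of_atTop
  obtain ⟨Z3, hZ3⟩ := (hcast.eventually_ge_atTop ((2 / κ) * ∑ j, 2 * r j)).exists_forall_of_atTop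
  refine ⟨κ / 2, by positivity, max (max (max P Z1) (max Z2 Z3)) 3, fun S hS hSZ b hb => ?_⟩
  have hSP : ∀ q ∈ S, P ≤ q := fun q hq =>
    (((le_max_left _ _).trans (le_max_left _ _)).trans (le_max_left _ _)).trans (hSZ q hq)
  have hS1 : ∀ q ∈ S, Z1 ≤ q := fun q hq =>
    (((le_max_right _ _).trans (le_max_left _ _)).trans (le_max_left _ _)).trans (hSZ q hq)
  have hS2 : ∀ q ∈ S, Z2 ≤ q := fun q hq =>
    (((le_max_left _ _).trans (le_max_right _ _)).trans (le_max_left _ _)).trans (hSZ q hq)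
  have hS3 : ∀ q ∈ S, Z3 ≤ q := fun q hq =>
    (((le_max_right _ _).trans (le_max_right _ _)).trans (le_max_left _ _)).trans (hSZ q hq)
  have hS4 : ∀ q ∈ S, 3 ≤ q := fun q hq => (le_max_right _ _).trans (hSZ q hq)
  set L : ℕ → ℝ := fun q => ((max (q : ℝ) 1) ^ A)⁻¹ with hL
  have hL0 : ∀ q, 0 < L q := fun q => by
    simp only [hL]
    have : (0 : ℝ) < max (q : ℝ) 1 := lt_max_of_lt_right one_pos
    positivity
  have hLq : ∀ q ∈ S, L q = ((q : ℝ) ^ A)⁻¹ := fun q hq => by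
    simp only [hL]
    rw [max_eq_left]
    exact_mod_cast (by have := hS4 q hq; omega : 1 ≤ q)
  have hq3 : ∀ q ∈ S, (3 : ℝ) ≤ q := fun q hq => by exact_mod_cast hS4 q hq
  have hLξ : ∀ q ∈ S, (k : ℝ) * (L q * (q : ℝ) ^ m * (4 * (q : ℝ) ^ 2) ^ k) ≤ ξ := by
    intro q hq
    have h3 := hq3 q hq
    have h0 : (0 : ℝ) < q := by linarith
    rw [hLq q hq, hA]
    have e : (k : ℝ) * (((q : ℝ) ^ (m + 2 * k + 1))⁻¹ * (q : ℝ) ^ m * (4 * (q : ℝ) ^ 2) ^ k) = k * 4 ^ k / q := by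
      rw [mul_pow, ← pow_mul, pow_succ, pow_add]
      field_simp
    rw [e, div_le_iff₀ h0]
    have := hZ1 q (hS1 q hq)
    rw [div_le_iff₀ hξ0] at this
    linarith
  have hLη : ∀ q ∈ S, L q ≤ η := by
    intro q hq
    have h3 := hq3 q hq
    rw [hLq q hq]
    have h1 : (q : ℝ) ≤ (q : ℝ) ^ A := by
      calc (q : ℝ) = (q : ℝ) ^ 1 := (pow_one _).symm
        _ ≤ _ := pow_le_pow_right₀ (by linarith) (by omega)
    have h2 := hZ2 q (hS2 q hq)
    calc ((q : ℝ) ^ A)⁻¹ ≤ (η⁻¹)⁻¹ := inv_anti₀ (by positivity) (h2.trans h1)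
      _ = η := inv_inv η
  set h : ℕ → ℝ → ℝ := fun q t => ff q (t + b q) with hh
  have hm : ∀ q, Measurable (h q) := fun q => (measurable_ff q).comp (measurable_add_const _)
  have h0 : ∀ q t, 0 ≤ h q t := fun q t => ff_nonneg _ _
  have h1 : ∀ q t, h q t ≤ 1 := fun q t => ff_le_one _ _
  -- the windows
  have hW : ∀ q ∈ S, ∀ x : Fin k → ℝ, (∀ j, |x j| ≤ 2 * r j) →
      (1 - δ) * rho a q * L q ≤ ∫ t in Set.Ioc 0 (L q), h q (Lin m q x + t) ∧
      ∫ t in Set.Ioc 0 (L q), h q (Lin m q x + t) ≤ (1 + δ) * rho a q * L q := by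
    intro q hq x hx
    have h3 := hq3 q hq
    have hq0 : (0 : ℝ) < q := by linarith
    have hlog : 0 < Real.log q := Real.log_pos (by linarith)
    have e1 : ∫ t in Set.Ioc 0 (L q), h q (Lin m q x + t) =
        ∫ t in Set.Ioc (Lin m q x + b q) (Lin m q x + b q + L q), ff q t := by
      simp only [hh]
      exact int_shift q (hL0 q).le _ _
    have h4 : |Lin m q x + b q - a * q| ≤ κ * q := by
      have h5 : |Lin m q x| ≤ κ / 2 * q := by
        refine (abs_Lin_le m (by have := hS4 q hq; omega) x).trans ?_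
        have h6 := hZ3 q (hS3 q hq)
        have h7 : ∑ j, |x j| ≤ ∑ j, 2 * r j := Finset.sum_le_sum fun j _ => hx j
        have h8 : (κ / 2) * ((2 / κ) * ∑ j, 2 * r j) ≤ κ / 2 * q := by gcongr
        have h9 : (κ / 2) * ((2 / κ) * ∑ j, 2 * r j) = ∑ j, 2 * r j := by field_simp
        linarith
      have h6 := hb q hq
      calc |Lin m q x + b q - a * q| = |Lin m q x + (b q - a * q)| := by congr 1; ring
        _ ≤ |Lin m q x| + |b q - a * q| := abs_add_le _ _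
        _ ≤ _ := by linarith
    have h5 := hwin q (hSP q hq) (L q) (le_of_eq (hLq q hq).symm) (hLη q hq) _ h4
    rw [← e1] at h5
    set I := ∫ t in Set.Ioc 0 (L q), h q (Lin m q x + t) with hI
    obtain ⟨h6, h7⟩ := abs_le.1 h5
    have hql : 0 < (q : ℝ) / Real.log q := by positivity
    have e2 : ∀ c : ℝ, c * rho a q * L q * (q / Real.log q) = c * (G / a) * L q := by
      intro c
      unfold rho
      rw [← hG]
      field_simp
    constructor
    · refine le_of_mul_le_mul_right ?_ hql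
      rw [e2]
      linarith
    · refine le_of_mul_le_mul_right ?_ hql
      rw [e2]
      linarith
  have hrho : ∀ q, 0 ≤ rho a q := rho_nonneg ha
  obtain ⟨hlow, hup⟩ := box_bounds (m := m) hm h0 h1 hS (fun q hq => by have := hS4 q hq; omega) hL0 hξ0.le hLξ hr
    (fun j => (hξr j).trans (by nlinarith [hr j])) (lo := fun q => (1 - δ) * rho a q)
    (hi := fun q => (1 + δ) * rho a q)
    (fun q _ => mul_nonneg (by linarith) (hrho q)) (fun q _ => mul_nonneg (by linarith) (hrho q))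
    (fun q hq x hx => (hW q hq x hx).1) (fun q hq x hx => (hW q hq x hx).2)
  have eF : ∫ x, FP m S h 0 x ∂(Un r) = ∫ x, (∏ i : S, ff i (Lin m i x + b i)) ∂(Un r) := by
    refine integral_congr_ae (Eventually.of_forall fun x => ?_)
    simp only [FP, hh, Pi.zero_apply, add_zero]
  rw [eF] at hlow hup
  have hprod : 0 ≤ ∏ q ∈ S, rho a q := Finset.prod_nonneg fun q _ => hrho q
  have hup1 : (∏ j, (1 + ξ / r j)) ≤ (1 + δ) ^ k := by
    calc ∏ j, (1 + ξ / r j) ≤ ∏ _j : Fin k, (1 + δ) := by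
          refine Finset.prod_le_prod (fun j _ => by have := hr j; positivity) fun j _ => ?_
          have : ξ / r j ≤ δ := by rw [div_le_iff₀ (hr j)]; exact hξr j
          linarith
      _ = _ := by simp
  have hlow1 : (1 - δ) ^ k ≤ (∏ j, (1 - ξ / r j)) := by
    calc (1 - δ) ^ k = ∏ _j : Fin k, (1 - δ) := by simp
      _ ≤ _ := by
          refine Finset.prod_le_prod (fun j _ => by linarith) fun j _ => ?_
          have : ξ / r j ≤ δ := by rw [div_le_iff₀ (hr j)]; exact hξr j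
          linarith
  have e3 : ∏ q ∈ S, (1 + δ) * rho a q = (1 + δ) ^ k * ∏ q ∈ S, rho a q := by
    rw [Finset.prod_mul_distrib, Finset.prod_const, hS]
  have e4 : ∏ q ∈ S, (1 - δ) * rho a q = (1 - δ) ^ k * ∏ q ∈ S, rho a q := by
    rw [Finset.prod_mul_distrib, Finset.prod_const, hS]
  rw [e3] at hup
  rw [e4] at hlow
  have hδ1' : 0 ≤ 1 - δ := by linarith
  rw [abs_le]
  constructor
  · have h5 : (1 - ε) * ∏ q ∈ S, rho a q ≤ (∏ j, (1 - ξ / r j)) * ((1 - δ) ^ k * ∏ q ∈ S, rho a q) := by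
      calc (1 - ε) * ∏ q ∈ S, rho a q ≤ (1 - δ) ^ (2 * k) * ∏ q ∈ S, rho a q :=
            mul_le_mul_of_nonneg_right hδl hprod
        _ = (1 - δ) ^ k * ((1 - δ) ^ k * ∏ q ∈ S, rho a q) := by ring
        _ ≤ _ := mul_le_mul_of_nonneg_right hlow1 (by positivity)
    linarith
  · have h5 : (∏ j, (1 + ξ / r j)) * ((1 + δ) ^ k * ∏ q ∈ S, rho a q) ≤ (1 + ε) * ∏ q ∈ S, rho a q := by
      calc (∏ j, (1 + ξ / r j)) * ((1 + δ) ^ k * ∏ q ∈ S, rho a q) ≤
            (1 + δ) ^ k * ((1 + δ) ^ k * ∏ q ∈ S, rho a q) :=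
            mul_le_mul_of_nonneg_right hup1 (by positivity)
        _ = (1 + δ) ^ (2 * k) * ∏ q ∈ S, rho a q := by ring
        _ ≤ _ := mul_le_mul_of_nonneg_right hδu hprod
    linarith

end Pool.Agent.Helper18K9.PL
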