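import Mathlib
import Pool.Agent.Helper18K9.PL.Core

set_option autoImplicit false

/-!
The random analytic perturbations and their correlations.
-/

namespace Pool.Agent.Helper18K9.PL

open Finset Filter Topology MeasureTheory ProbabilityTheory
open Pool.Agent.H305R2 (ff ff_nonneg ff_le_one measurable_ff integrableOn_ff)

/-- The hypotheses on the random coefficients. -/
structure Coeffs {Ω : Type} [MeasurableSpace Ω] (P : Measure Ω) (r : ℕ → ℝ) (c : ℕ → Ω → ℝ) : Prop where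
  rpos : ∀ j, 0 < r j
  rsum : Summable r
  meas : ∀ j, Measurable (c j)
  indep : iIndepFun c P
  unif : ∀ j, P.map (c j) = ProbabilityTheory.cond volume (Set.Icc (-(r j)) (r j))

/-- the exponent of the perturbed number -/
noncomputable def Fr {Ω : Type} (g : ℕ → ℝ) (m : ℕ) (c : ℕ → Ω → ℝ) (ω : Ω) (q : ℕ) : ℝ :=
  g q + ∑' j, c j ω * ((q : ℝ) ^ (m + j))⁻¹

/-- clamping -/
noncomputable def cl (r t : ℝ) : ℝ := max (-r) (min t r)

lemma abs_cl_le {r : ℝ} (hr : 0 ≤ r) (t : ℝ) : |cl r t| ≤ r := by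
  unfold cl
  rw [abs_le]
  refine ⟨le_max_left _ _, max_le (by linarith) (min_le_right _ _)⟩

lemma cl_eq {r t : ℝ} (h : t ∈ Set.Icc (-r) r) : cl r t = t := by
  unfold cl
  rw [min_eq_left h.2, max_eq_right h.1]

lemma measurable_cl (r : ℝ) : Measurable (cl r) := by
  unfold cl
  fun_prop

/-- the tail of the perturbation -/
noncomputable def Tl (r : ℕ → ℝ) (m k q : ℕ) (y : ℕ → ℝ) : ℝ :=
  ∑' j, cl (r (k + j)) (y j) * ((q : ℝ) ^ (m + (k + j)))⁻¹

section

variable {r : ℕ → ℝ} (rpos : ∀ j, 0 < r j) (rsum : Summable r)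

include rpos rsum in
lemma summable_Tl (m k : ℕ) {q : ℕ} (hq : 1 ≤ q) (y : ℕ → ℝ) :
    Summable fun j => cl (r (k + j)) (y j) * ((q : ℝ) ^ (m + (k + j)))⁻¹ := by
  have h1 : Summable fun j => r (k + j) := by
    have := (summable_nat_add_iff k).2 rsum
    refine this.congr fun j => by rw [add_comm]
  refine Summable.of_norm_bounded h1 fun j => ?_
  have hq1 : (1 : ℝ) ≤ q := by exact_mod_cast hq
  rw [Real.norm_eq_abs, abs_mul, abs_of_pos (by positivity : (0 : ℝ) < ((q : ℝ) ^ (m + (k + j)))⁻¹)]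
  have h2 : ((q : ℝ) ^ (m + (k + j)))⁻¹ ≤ 1 := inv_le_one_of_one_le₀ (one_le_pow₀ hq1)
  have h3 := abs_cl_le (rpos (k + j)).le (y j)
  nlinarith [abs_nonneg (cl (r (k + j)) (y j))]

include rpos rsum in
lemma abs_Tl_le (m k : ℕ) {q : ℕ} (hq : 1 ≤ q) (y : ℕ → ℝ) : |Tl r m k q y| ≤ ∑' j, r j := by
  have h1 : Summable fun j => r (k + j) := by
    have := (summable_nat_add_iff k).2 rsum
    refine this.congr fun j => by rw [add_comm]
  unfold Tl
  have h4 : |∑' j, cl (r (k + j)) (y j) * ((q : ℝ) ^ (m + (k + j)))⁻¹| ≤ ∑' j, r (k + j) := by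
    rw [← Real.norm_eq_abs]
    refine tsum_of_norm_bounded h1.hasSum fun j => ?_
    have hq1 : (1 : ℝ) ≤ q := by exact_mod_cast hq
    rw [Real.norm_eq_abs, abs_mul, abs_of_pos (by positivity : (0 : ℝ) < ((q : ℝ) ^ (m + (k + j)))⁻¹)]
    have h2 : ((q : ℝ) ^ (m + (k + j)))⁻¹ ≤ 1 := inv_le_one_of_one_le₀ (one_le_pow₀ hq1)
    have h3 := abs_cl_le (rpos (k + j)).le (y j)
    nlinarith [abs_nonneg (cl (r (k + j)) (y j))]
  refine h4.trans ?_
  have h5 := rsum.sum_add_tsum_nat_add k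
  have h6 : ∑' j, r (k + j) = ∑' j, r (j + k) := tsum_congr fun j => by rw [add_comm]
  have h7 : 0 ≤ ∑ j ∈ Finset.range k, r j := Finset.sum_nonneg fun j _ => (rpos j).le
  linarith

include rpos rsum in
lemma measurable_Tl (m k : ℕ) {q : ℕ} (hq : 1 ≤ q) : Measurable (Tl r m k q) := by
  have h := fun y : ℕ → ℝ => (summable_Tl rpos rsum m k hq y).hasSum.tendsto_sum_nat
  refine measurable_of_tendsto_metrizable (f := fun (n : ℕ) (y : ℕ → ℝ) =>
    ∑ j ∈ Finset.range n, cl (r (k + j)) (y j) * ((q : ℝ) ^ (m + (k + j)))⁻¹) (fun n => ?_)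
    (tendsto_pi_nhds.2 h)
  refine Finset.measurable_sum _ fun j _ => ?_
  exact ((measurable_cl _).comp (measurable_pi_apply j)).mul_const _

end

section

variable {Ω : Type} [MeasurableSpace Ω] {P : Measure Ω} [IsProbabilityMeasure P] {r : ℕ → ℝ}
  {c : ℕ → Ω → ℝ}

lemma Coeffs.ae_mem (h : Coeffs P r c) : ∀ᵐ ω ∂P, ∀ j, c j ω ∈ Set.Icc (-(r j)) (r j) := by
  rw [ae_all_iff]
  intro j
  have h1 : ∀ᵐ t ∂(P.map (c j)), t ∈ Set.Icc (-(r j)) (r j) := by
    rw [h.unif j]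
    exact ae_cond_mem measurableSet_Icc
  exact ae_of_ae_map (h.meas j).aemeasurable h1

lemma Coeffs.law (h : Coeffs P r c) (k : ℕ) :
    P.map (fun ω (j : Fin k) => c j ω) = Un (fun j : Fin k => r j) := by
  have h1 : iIndepFun (fun (j : Fin k) => c (j : ℕ)) P := h.indep.precomp Fin.val_injective
  have h2 := (iIndepFun_iff_map_fun_eq_pi_map (μ := P) (f := fun (j : Fin k) => c (j : ℕ))
    fun j => (h.meas j).aemeasurable).1 h1
  rw [h2]
  unfold Un
  congr 1
  funext j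
  exact h.unif j

lemma Coeffs.indep_tail (h : Coeffs P r c) (k : ℕ) :
    IndepFun (fun ω (j : Fin k) => c j ω) (fun ω (j : ℕ) => c (k + j) ω) P := by
  have h1 : iIndep (fun j => MeasurableSpace.comap (c j) inferInstance) P := h.indep.iIndep
  have h2 := indep_iSup_of_disjoint (fun j => (h.meas j).comap_le) h1
    (S := {j | j < k}) (T := {j | k ≤ j}) (by
      rw [Set.disjoint_left]; intro j hj hj2; simp only [Set.mem_setOf_eq] at hj hj2; omega)
  rw [IndepFun_iff_Indep]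
  refine indep_of_indep_of_le_left (indep_of_indep_of_le_right h2 ?_) ?_
  · rw [← measurable_iff_comap_le, @measurable_pi_iff]
    intro j
    refine Measurable.mono (comap_measurable (c (k + j))) ?_ le_rfl
    exact le_iSup₂_of_le (k + j) (by simp) le_rfl
  · rw [← measurable_iff_comap_le, @measurable_pi_iff]
    intro j
    refine Measurable.mono (comap_measurable (c j)) ?_ le_rfl
    exact le_iSup₂_of_le (j : ℕ) (by simp) le_rfl

lemma Coeffs.summable (h : Coeffs P r c) (m : ℕ) {ω : Ω} (hω : ∀ j, c j ω ∈ Set.Icc (-(r j)) (r j))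
    {q : ℕ} (hq : 1 ≤ q) : Summable fun j => c j ω * ((q : ℝ) ^ (m + j))⁻¹ := by
  have := summable_Tl h.rpos h.rsum m 0 hq (fun j => c j ω)
  refine this.congr fun j => ?_
  rw [zero_add, cl_eq (hω j)]

lemma Coeffs.Fr_eq (h : Coeffs P r c) (g : ℕ → ℝ) (m k : ℕ) {ω : Ω}
    (hω : ∀ j, c j ω ∈ Set.Icc (-(r j)) (r j)) {q : ℕ} (hq : 1 ≤ q) :
    Fr g m c ω q = Lin m q (fun j : Fin k => c j ω) + (g q + Tl r m k q (fun j => c (k + j) ω)) := by
  unfold Fr Lin Tl
  rw [← (h.summable m hω hq).sum_add_tsum_nat_add k, Finset.sum_range]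
  have : ∑' j, c (j + k) ω * ((q : ℝ) ^ (m + (j + k)))⁻¹ =
      ∑' j, cl (r (k + j)) (c (k + j) ω) * ((q : ℝ) ^ (m + (k + j)))⁻¹ := by
    refine tsum_congr fun j => ?_
    rw [cl_eq (hω (k + j)), add_comm j k]
  rw [this]
  ring

/-- **Correlations of all orders.** -/
theorem corr (h : Coeffs P r c) {g : ℕ → ℝ} {a : ℝ} (ha : 0 < a)
    (hg : Tendsto (fun p : ℕ => g p / p) atTop (𝓝 a)) (m k : ℕ) {ε : ℝ} (hε : 0 < ε) :
    ∃ Z : ℕ, ∀ S : Finset ℕ, S.card = k → (∀ q ∈ S, Z ≤ q) →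
      |∫ ω, (∏ q ∈ S, ff q (Fr g m c ω q)) ∂P - ∏ q ∈ S, rho a q| ≤ ε * ∏ q ∈ S, rho a q := by
  obtain ⟨κ, hκ, Z, hZ⟩ := core ha m k (r := fun j : Fin k => r j) (fun j => h.rpos j) hε
  have hcast := tendsto_natCast_atTop_atTop (R := ℝ)
  obtain ⟨Z1, hZ1⟩ := (hcast.eventually_ge_atTop ((2 / κ) * ∑' j, r j)).exists_forall_of_atTop
  obtain ⟨Z2, hZ2⟩ : ∃ Z2 : ℕ, ∀ q, Z2 ≤ q → |g q / q - a| ≤ κ / 2 := by
    have := (Metric.tendsto_nhds.1 hg) (κ / 2) (by positivity)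
    obtain ⟨Z2, h2⟩ := this.exists_forall_of_atTop
    exact ⟨Z2, fun q hq => (by have := h2 q hq; rw [Real.dist_eq] at this; exact this.le)⟩
  refine ⟨max (max Z Z1) (max Z2 1), fun S hS hSZ => ?_⟩
  have hS0 : ∀ q ∈ S, Z ≤ q := fun q hq =>
    ((le_max_left _ _).trans (le_max_left _ _)).trans (hSZ q hq)
  have hS1 : ∀ q ∈ S, Z1 ≤ q := fun q hq =>
    ((le_max_right _ _).trans (le_max_left _ _)).trans (hSZ q hq)
  have hS2 : ∀ q ∈ S, Z2 ≤ q := fun q hq =>
    ((le_max_left _ _).trans (le_max_right _ _)).trans (hSZ q hq)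
  have hS3 : ∀ q ∈ S, 1 ≤ q := fun q hq =>
    ((le_max_right _ _).trans (le_max_right _ _)).trans (hSZ q hq)
  set X : Ω → (Fin k → ℝ) := fun ω (j : Fin k) => c j ω with hX
  set Y : Ω → (ℕ → ℝ) := fun ω (j : ℕ) => c (k + j) ω with hY
  have hXm : Measurable X := measurable_pi_iff.2 fun j => h.meas j
  have hYm : Measurable Y := measurable_pi_iff.2 fun j => h.meas (k + j)
  set Φ : (Fin k → ℝ) × (ℕ → ℝ) → ℝ := fun z =>
    ∏ i : S, ff i (Lin m i z.1 + (g i + Tl r m k i z.2)) with hΦ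
  have hΦm : Measurable Φ := by
    refine Finset.measurable_prod _ fun i _ => (measurable_ff i).comp ?_
    exact ((measurable_Lin m i).comp measurable_fst).add
      (((measurable_Tl h.rpos h.rsum m k (hS3 i i.2)).comp measurable_snd).const_add _)
  have hΦ0 : ∀ z, 0 ≤ Φ z := fun z => Finset.prod_nonneg fun i _ => ff_nonneg _ _
  have hΦ1 : ∀ z, Φ z ≤ 1 := fun z => Finset.prod_le_one (fun i _ => ff_nonneg _ _) fun i _ => ff_le_one _ _
  have e1 : ∫ ω, (∏ q ∈ S, ff q (Fr g m c ω q)) ∂P = ∫ ω, Φ (X ω, Y ω) ∂P := by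
    refine integral_congr_ae ?_
    filter_upwards [h.ae_mem] with ω hω
    simp only [hΦ]
    rw [← Finset.prod_coe_sort S]
    refine Finset.prod_congr rfl fun i _ => ?_
    rw [h.Fr_eq g m k hω (hS3 i i.2)]
  have e2 : ∫ ω, Φ (X ω, Y ω) ∂P = ∫ z, Φ z ∂((P.map X).prod (P.map Y)) := by
    rw [← (indepFun_iff_map_prod_eq_prod_map_map hXm.aemeasurable hYm.aemeasurable).1 (h.indep_tail k),
      integral_map (hXm.prodMk hYm).aemeasurable hΦm.aestronglyMeasurable]
  have : IsProbabilityMeasure (P.map X) := Measure.isProbabilityMeasure_map hXm.aemeasurable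
  have : IsProbabilityMeasure (P.map Y) := Measure.isProbabilityMeasure_map hYm.aemeasurable
  have hint : Integrable Φ ((P.map X).prod (P.map Y)) := by
    refine Integrable.of_bound hΦm.aestronglyMeasurable 1 (Eventually.of_forall fun z => ?_)
    rw [Real.norm_of_nonneg (hΦ0 z)]
    exact hΦ1 z
  rw [e1, e2, integral_prod_symm _ hint]
  set ρ := ∏ q ∈ S, rho a q with hρ
  have hin : ∀ y : ℕ → ℝ, |∫ x, Φ (x, y) ∂(P.map X) - ρ| ≤ ε * ρ := by
    intro y
    rw [hX, h.law k]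
    refine hZ S hS hS0 (fun q => g q + Tl r m k q y) fun q hq => ?_
    have h3 := hS3 q hq
    have hq0 : (0 : ℝ) < q := by exact_mod_cast h3
    have h4 := abs_Tl_le h.rpos h.rsum m k h3 y
    have h5 := hZ1 q (hS1 q hq)
    have h6 := hZ2 q (hS2 q hq)
    have h7 : |g q - a * q| ≤ κ / 2 * q := by
      have e : g q - a * q = (g q / q - a) * q := by field_simp
      rw [e, abs_mul, abs_of_pos hq0]
      exact mul_le_mul_of_nonneg_right h6 hq0.le
    have h8 : (κ / 2) * ((2 / κ) * ∑' j, r j) ≤ κ / 2 * q := by gcongr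
    have h9 : (κ / 2) * ((2 / κ) * ∑' j, r j) = ∑' j, r j := by field_simp
    calc |g q + Tl r m k q y - a * q| = |(g q - a * q) + Tl r m k q y| := by congr 1; ring
      _ ≤ |g q - a * q| + |Tl r m k q y| := abs_add_le _ _
      _ ≤ κ * q := by linarith
  have hint2 : Integrable (fun y => ∫ x, Φ (x, y) ∂(P.map X)) (P.map Y) := hint.integral_prod_right
  have e3 : ∫ y, (∫ x, Φ (x, y) ∂(P.map X)) ∂(P.map Y) - ρ =
      ∫ y, ((∫ x, Φ (x, y) ∂(P.map X)) - ρ) ∂(P.map Y) := by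
    rw [integral_sub hint2 (integrable_const _), integral_const]
    simp
  rw [e3]
  have h10 := norm_integral_le_of_norm_le_const (μ := P.map Y) (f := fun y => (∫ x, Φ (x, y) ∂(P.map X)) - ρ)
    (C := ε * ρ) (Eventually.of_forall fun y => by rw [Real.norm_eq_abs]; exact hin y)
  rw [Real.norm_eq_abs] at h10
  simpa using h10

end

end Pool.Agent.Helper18K9.PL
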