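import Mathlib
import Pool.Agent.Helper18K9.PL.Prob
import Pool.Agent.Helper18K9.PL.Poi

set_option autoImplicit false

/-!
Factorial moments of the numbers of exponents in windows.
-/

namespace Pool.Agent.Helper18K9.PL

open Finset Filter Topology MeasureTheory
open Pool.Agent.H305R2 (ff ff_nonneg ff_le_one measurable_ff NN roughPart measurable_NN pr)
open Pool.Agent.H447R2.ML (RL RL_nonneg RL_tendsto)

/-- elementary symmetric sums -/
noncomputable def Es (x : ℕ → ℝ) (k : ℕ) (T : Finset ℕ) : ℝ := ∑ S ∈ T.powersetCard k, ∏ q ∈ S, x q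

lemma Es_zero (x : ℕ → ℝ) (T : Finset ℕ) : Es x 0 T = 1 := by unfold Es; simp

lemma Es_empty (x : ℕ → ℝ) (k : ℕ) : Es x (k + 1) ∅ = 0 := by
  unfold Es
  rw [Finset.powersetCard_eq_empty.2 (by simp), Finset.sum_empty]

lemma Es_insert (x : ℕ → ℝ) (k : ℕ) {T : Finset ℕ} {q : ℕ} (hq : q ∉ T) :
    Es x (k + 1) (insert q T) = Es x (k + 1) T + x q * Es x k T := by
  unfold Es
  rw [Finset.powersetCard_succ_insert hq, Finset.sum_union, Finset.sum_image, Finset.mul_sum]
  · congr 1
    refine Finset.sum_congr rfl fun S hS => ?_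
    rw [Finset.mem_powersetCard] at hS
    rw [Finset.prod_insert fun h => hq (hS.1 h)]
  · intro S hS S' hS' h
    rw [Finset.mem_coe, Finset.mem_powersetCard] at hS hS'
    have h1 : q ∉ S := fun h => hq (hS.1 h)
    have h2 : q ∉ S' := fun h => hq (hS'.1 h)
    rw [← Finset.erase_insert h1, ← Finset.erase_insert h2, h]
  · rw [Finset.disjoint_left]
    intro S hS hS'
    rw [Finset.mem_powersetCard] at hS
    rw [Finset.mem_image] at hS'
    obtain ⟨S', _, rfl⟩ := hS'
    exact hq (hS.1 (Finset.mem_insert_self _ _))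

lemma pow_taylor {p x : ℝ} (hp : 0 ≤ p) (hx : 0 ≤ x) (j : ℕ) :
    (p + x) ^ (j + 2) ≤ p ^ (j + 2) + (j + 2) * x * p ^ (j + 1) + (j + 2) * (j + 1) / 2 * x ^ 2 * (p + x) ^ j := by
  induction j with
  | zero => simp; nlinarith
  | succ j ih =>
    have h1 : p ^ (j + 1) ≤ (p + x) ^ (j + 1) := pow_le_pow_left₀ hp (by linarith) _
    have h2 := mul_le_mul_of_nonneg_left ih (by positivity : 0 ≤ p + x)
    have h3 : 0 ≤ ((j : ℝ) + 2) * x ^ 2 := by positivity
    have h4 := mul_le_mul_of_nonneg_left h1 h3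
    have e1 : (p + x) * (p ^ (j + 2) + (j + 2) * x * p ^ (j + 1) + (j + 2) * (j + 1) / 2 * x ^ 2 * (p + x) ^ j) =
        p ^ (j + 3) + (j + 3) * x * p ^ (j + 2) + ((j : ℝ) + 2) * x ^ 2 * p ^ (j + 1) +
          (j + 2) * (j + 1) / 2 * x ^ 2 * (p + x) ^ (j + 1) := by ring
    have e2 : (p + x) * (p + x) ^ (j + 2) = (p + x) ^ (j + 3) := by ring
    rw [e1, e2] at h2
    push_cast
    have e3 : ((j : ℝ) + 1 + 2) * (j + 1 + 1) / 2 * x ^ 2 * (p + x) ^ (j + 1) =
        ((j : ℝ) + 2) * x ^ 2 * (p + x) ^ (j + 1) + (j + 2) * (j + 1) / 2 * x ^ 2 * (p + x) ^ (j + 1) := by ring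
    rw [e3]
    have e4 : ((j : ℝ) + 1 + 2) * x * p ^ (j + 1 + 1) = (j + 3) * x * p ^ (j + 2) := by ring
    rw [e4, show j + 1 + 2 = j + 3 by ring]
    linarith

lemma pow_bern {p x : ℝ} (hp : 0 ≤ p) (hx : 0 ≤ x) (k : ℕ) :
    p ^ (k + 1) + (k + 1) * x * p ^ k ≤ (x + p) ^ (k + 1) := by
  induction k with
  | zero => simp; linarith
  | succ k ih =>
    have h1 : p ^ (k + 1) ≤ (x + p) ^ (k + 1) := pow_le_pow_left₀ hp (by linarith) _
    have h2 := mul_le_mul_of_nonneg_left ih hp
    have h3 := mul_le_mul_of_nonneg_left h1 hx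
    push_cast
    have e : (x + p) ^ (k + 1 + 1) = p * (x + p) ^ (k + 1) + x * (x + p) ^ (k + 1) := by ring
    rw [e]
    have e2 : p ^ (k + 1 + 1) + (k + 1 + 1) * x * p ^ (k + 1) = p * (p ^ (k + 1) + (k + 1) * x * p ^ k) + x * p ^ (k + 1) := by
      ring
    rw [e2]
    linarith

lemma pow_fact_step {p x : ℝ} (hp : 0 ≤ p) (hx : 0 ≤ x) (k : ℕ) :
    (p + x) ^ (k + 1) / (k + 1).factorial ≤
      p ^ (k + 1) / (k + 1).factorial + x * (p ^ k / k.factorial) + x ^ 2 * Real.exp (p + x) := by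
  rcases k with _ | j
  · simp
    have := Real.exp_pos (p + x)
    positivity
  · have h1 := pow_taylor hp hx j
    have h2 := Real.pow_div_factorial_le_exp (x := p + x) (by positivity) j
    have f0 : (0 : ℝ) < (j.factorial : ℝ) := by exact_mod_cast Nat.factorial_pos _
    have e1 : (((j + 1).factorial : ℕ) : ℝ) = (j + 1) * j.factorial := by
      rw [Nat.factorial_succ]; push_cast; ring
    have e2 : (((j + 1 + 1).factorial : ℕ) : ℝ) = (j + 2) * ((j + 1) * j.factorial) := by
      rw [Nat.factorial_succ, Nat.cast_mul, e1]; push_cast; ring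
    rw [e1, e2]
    have h3 : x ^ 2 * ((p + x) ^ j / j.factorial) / 2 ≤ x ^ 2 * Real.exp (p + x) := by
      have : 0 ≤ x ^ 2 := by positivity
      have h4 := mul_le_mul_of_nonneg_left h2 this
      have h5 : 0 ≤ x ^ 2 * ((p + x) ^ j / j.factorial) := by positivity
      linarith
    have e3 : (p + x) ^ (j + 1 + 1) / ((j + 2) * ((j + 1) * (j.factorial : ℝ))) ≤
        (p ^ (j + 2) + (j + 2) * x * p ^ (j + 1) + (j + 2) * (j + 1) / 2 * x ^ 2 * (p + x) ^ j) /
          ((j + 2) * ((j + 1) * (j.factorial : ℝ))) := by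
      gcongr
    refine e3.trans ?_
    have e4 : (p ^ (j + 2) + (j + 2) * x * p ^ (j + 1) + (j + 2) * (j + 1) / 2 * x ^ 2 * (p + x) ^ j) /
          ((j + 2) * ((j + 1) * (j.factorial : ℝ))) =
        p ^ (j + 1 + 1) / ((j + 2) * ((j + 1) * (j.factorial : ℝ))) +
          x * (p ^ (j + 1) / ((j + 1) * (j.factorial : ℝ))) + x ^ 2 * ((p + x) ^ j / j.factorial) / 2 := by
      field_simp
    rw [e4]
    linarith

lemma Es_nonneg {x : ℕ → ℝ} (hx : ∀ q, 0 ≤ x q) (k : ℕ) (T : Finset ℕ) : 0 ≤ Es x k T :=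
  Finset.sum_nonneg fun S _ => Finset.prod_nonneg fun q _ => hx q

lemma Es_bounds {x : ℕ → ℝ} (hx : ∀ q, 0 ≤ x q) (T : Finset ℕ) : ∀ k : ℕ,
    Es x k T ≤ (∑ q ∈ T, x q) ^ k / k.factorial ∧
      (∑ q ∈ T, x q) ^ k / k.factorial ≤ Es x k T + (∑ q ∈ T, x q ^ 2) * Real.exp (∑ q ∈ T, x q) := by
  induction T using Finset.induction_on with
  | empty =>
    intro k
    rcases k with _ | k
    · simp [Es_zero]
    · rw [Es_empty]; simp
  | insert q T hq ih =>
    intro k
    rw [Finset.sum_insert hq, Finset.sum_insert hq]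
    have hp : 0 ≤ ∑ q ∈ T, x q := Finset.sum_nonneg fun q _ => hx q
    have hp2 : 0 ≤ ∑ q ∈ T, x q ^ 2 := Finset.sum_nonneg fun q _ => by positivity
    have hxq := hx q
    set p := ∑ q ∈ T, x q
    set p2 := ∑ q ∈ T, x q ^ 2
    rcases k with _ | k
    · rw [Es_zero]
      simp
      positivity
    · rw [Es_insert x k hq]
      obtain ⟨u1, l1⟩ := ih (k + 1)
      obtain ⟨u0, l0⟩ := ih k
      constructor
      · have h1 : p ^ (k + 1) / (k + 1).factorial + x q * (p ^ k / k.factorial) ≤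
            (x q + p) ^ (k + 1) / (k + 1).factorial := by
          have f0 : (0 : ℝ) < (k.factorial : ℝ) := by exact_mod_cast Nat.factorial_pos _
          have e1 : (((k + 1).factorial : ℕ) : ℝ) = (k + 1) * k.factorial := by
            rw [Nat.factorial_succ]; push_cast; ring
          have h2 : p ^ (k + 1) + (k + 1) * x q * p ^ k ≤ (x q + p) ^ (k + 1) := by
            exact pow_bern hp hxq k
          rw [e1]
          have e2 : p ^ (k + 1) / ((k + 1) * (k.factorial : ℝ)) + x q * (p ^ k / k.factorial) =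
              (p ^ (k + 1) + (k + 1) * x q * p ^ k) / ((k + 1) * (k.factorial : ℝ)) := by
            field_simp
          rw [e2]
          gcongr
        have h3 := mul_le_mul_of_nonneg_left u0 hxq
        linarith
      · have h1 := pow_fact_step hp hxq k
        have h3 := mul_le_mul_of_nonneg_left l0 hxq
        have h4 : (1 + x q) * Real.exp p ≤ Real.exp (x q + p) := by
          rw [Real.exp_add]
          have := Real.add_one_le_exp (x q)
          have := Real.exp_pos p
          nlinarith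
        have h5 := mul_le_mul_of_nonneg_left h4 hp2
        have e : (x q ^ 2 + p2) * Real.exp (x q + p) = x q ^ 2 * Real.exp (p + x q) + p2 * Real.exp (x q + p) := by
          rw [add_comm p]; ring
        rw [e, add_comm (x q) p] at *
        nlinarith

lemma Es_tendsto {Z : Type} {l : Filter Z} {x : ℕ → ℝ} (hx : ∀ q, 0 ≤ x q) {T : Z → Finset ℕ} {lam : ℝ}
    (h1 : Tendsto (fun z => ∑ q ∈ T z, x q) l (𝓝 lam))
    (h2 : Tendsto (fun z => ∑ q ∈ T z, x q ^ 2) l (𝓝 0)) (k : ℕ) :
    Tendsto (fun z => Es x k (T z)) l (𝓝 (lam ^ k / k.factorial)) := by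
  have h3 : Tendsto (fun z => (∑ q ∈ T z, x q) ^ k / k.factorial) l (𝓝 (lam ^ k / k.factorial)) :=
    (h1.pow k).div_const _
  have h4 : Tendsto (fun z => (∑ q ∈ T z, x q) ^ k / k.factorial -
      (∑ q ∈ T z, x q ^ 2) * Real.exp (∑ q ∈ T z, x q)) l (𝓝 (lam ^ k / k.factorial - 0 * Real.exp lam)) :=
    h3.sub (h2.mul ((Real.continuous_exp.tendsto _).comp h1))
  rw [zero_mul, sub_zero] at h4
  exact tendsto_of_tendsto_of_tendsto_of_le_of_le h4 h3
    (fun z => by have := (Es_bounds hx (T z) k).2; simp only; linarith) (fun z => (Es_bounds hx (T z) k).1)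

/-- number of sets of `k` elements all of which satisfy `p` -/
lemma choose_filter (T : Finset ℕ) (p : ℕ → Prop) [DecidablePred p] (k : ℕ) :
    (((T.filter p).card.choose k : ℕ) : ℝ) = ∑ S ∈ T.powersetCard k, ∏ q ∈ S, (if p q then (1 : ℝ) else 0) := by
  have h1 : ∀ S ∈ T.powersetCard k, ∏ q ∈ S, (if p q then (1 : ℝ) else 0) = if ∀ q ∈ S, p q then 1 else 0 := by
    intro S _
    rw [Finset.prod_ite_zero]
    simp
  rw [Finset.sum_congr rfl h1, ← Finset.sum_filter, Finset.sum_const, nsmul_eq_mul, mul_one, ← Finset.card_powersetCard]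
  congr 2
  ext S
  simp only [Finset.mem_powersetCard, Finset.mem_filter, Finset.subset_iff]
  constructor
  · rintro ⟨a, b⟩
    exact ⟨⟨fun x hx => (a hx).1, b⟩, fun x hx => (a hx).2⟩
  · rintro ⟨⟨a, b⟩, d⟩
    exact ⟨fun x hx => ⟨a hx, d x hx⟩, b⟩

/-- the number of exponents in a set -/
noncomputable def Cn {Ω : Type} (g : ℕ → ℝ) (m : ℕ) (c : ℕ → Ω → ℝ) (T : Finset ℕ) (ω : Ω) : ℕ :=
  (T.filter fun q => (roughPart q (NN (Fr g m c ω q))).Prime).card

lemma Cn_choose {Ω : Type} (g : ℕ → ℝ) (m : ℕ) (c : ℕ → Ω → ℝ) (T : Finset ℕ) (ω : Ω) (k : ℕ) :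
    ((Cn g m c T ω).choose k : ℝ) = ∑ S ∈ T.powersetCard k, ∏ q ∈ S, ff q (Fr g m c ω q) :=
  choose_filter T _ k

section

variable {Ω : Type} [MeasurableSpace Ω] {P : Measure Ω} [IsProbabilityMeasure P] {r : ℕ → ℝ}
  {c : ℕ → Ω → ℝ}

lemma measurable_tsum' {F : ℕ → Ω → ℝ} (hF : ∀ j, Measurable (F j)) : Measurable fun ω => ∑' j, F j ω := by
  classical
  have hs : MeasurableSet {ω | Summable fun j => F j ω} := by
    have h1 : {ω | Summable fun j => F j ω} = {ω | Summable fun j => |F j ω|} := by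
      ext ω
      simp only [Set.mem_ofPred_eq]
      exact summable_abs_iff.symm
    have h2 : {ω | Summable fun j => |F j ω|} = {ω | ∑' j, ENNReal.ofReal |F j ω| ≠ ⊤} := by
      ext ω
      simp only [Set.mem_ofPred_eq]
      constructor
      · intro h
        rw [← ENNReal.ofReal_tsum_of_nonneg (fun j => abs_nonneg _) h]
        exact ENNReal.ofReal_ne_top
      · intro h
        have := ENNReal.summable_toReal h
        refine this.congr fun j => ?_
        rw [ENNReal.toReal_ofReal (abs_nonneg _)]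
    rw [h1, h2]
    have h5 : Measurable fun ω => ∑' j, ENNReal.ofReal |F j ω| :=
      Measurable.ennreal_tsum fun j => ENNReal.measurable_ofReal.comp (measurable_norm.comp (hF j))
    exact (h5 (measurableSet_singleton ⊤)).compl
  have h3 : (fun ω => ∑' j, F j ω) = fun ω => ∑' j, (if Summable fun i => F i ω then F j ω else 0) := by
    funext ω
    by_cases h : Summable fun i => F i ω
    · simp [h]
    · simp [h, tsum_eq_zero_of_not_summable h]
  rw [h3]
  refine measurable_of_tendsto_metrizable (f := fun (n : ℕ) (ω : Ω) =>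
    ∑ j ∈ Finset.range n, (if Summable fun i => F i ω then F j ω else 0)) (fun n => ?_)
    (tendsto_pi_nhds.2 fun ω => ?_)
  · exact Finset.measurable_sum _ fun j _ => Measurable.ite hs (hF j) measurable_const
  · by_cases h : Summable fun i => F i ω
    · simpa [h] using h.hasSum.tendsto_sum_nat
    · simp [h]

lemma Coeffs.measurable_Fr (h : Coeffs P r c) (g : ℕ → ℝ) (m q : ℕ) : Measurable fun ω => Fr g m c ω q := by
  unfold Fr
  exact (measurable_tsum' fun j => (h.meas j).mul_const _).const_add _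

lemma Coeffs.measurable_Cn (h : Coeffs P r c) (g : ℕ → ℝ) (m : ℕ) (T : Finset ℕ) : Measurable (Cn g m c T) := by
  have h1 : Measurable fun ω => ∑ q ∈ T, (if (roughPart q (NN (Fr g m c ω q))).Prime then 1 else 0 : ℕ) := by
    refine Finset.measurable_sum _ fun q _ => ?_
    exact (measurable_from_nat (f := fun n : ℕ => if (roughPart q n).Prime then (1 : ℕ) else 0)).comp
      (measurable_NN.comp (h.measurable_Fr g m q))
  have h2 : Cn g m c T = fun ω => ∑ q ∈ T, (if (roughPart q (NN (Fr g m c ω q))).Prime then 1 else 0 : ℕ) := by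
    funext ω
    unfold Cn
    rw [Finset.card_filter]
  rw [h2]
  exact h1

/-- **Mixed factorial moments.** -/
theorem mixed (h : Coeffs P r c) {g : ℕ → ℝ} {a : ℝ} (ha : 0 < a)
    (hg : Tendsto (fun p : ℕ => g p / p) atTop (𝓝 a)) (m : ℕ) {ι : Type} [Fintype ι] [DecidableEq ι]
    (k : ι → ℕ) {ε : ℝ} (hε : 0 < ε) :
    ∃ Z : ℕ, ∀ T : ι → Finset ℕ, (∀ i, ∀ q ∈ T i, Z ≤ q) → (∀ i j, i ≠ j → Disjoint (T i) (T j)) →
      |∫ ω, ∏ i, ((Cn g m c (T i) ω).choose (k i) : ℝ) ∂P - ∏ i, Es (rho a) (k i) (T i)| ≤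
        ε * ∏ i, Es (rho a) (k i) (T i) := by
  obtain ⟨Z, hZ⟩ := corr h ha hg m (∑ i, k i) hε
  refine ⟨Z, fun T hT hTd => ?_⟩
  have e1 : ∀ ω, ∏ i, ((Cn g m c (T i) ω).choose (k i) : ℝ) =
      ∑ J ∈ Fintype.piFinset (fun i => (T i).powersetCard (k i)),
        ∏ q ∈ Finset.univ.biUnion J, ff q (Fr g m c ω q) := by
    intro ω
    simp_rw [Cn_choose]
    rw [Finset.prod_univ_sum]
    refine Finset.sum_congr rfl fun J hJ => ?_
    rw [Fintype.mem_piFinset] at hJ
    rw [Finset.prod_biUnion]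
    intro i _ j _ hij
    exact (hTd i j hij).mono (Finset.mem_powersetCard.1 (hJ i)).1 (Finset.mem_powersetCard.1 (hJ j)).1
  have e2 : ∏ i, Es (rho a) (k i) (T i) = ∑ J ∈ Fintype.piFinset (fun i => (T i).powersetCard (k i)),
        ∏ q ∈ Finset.univ.biUnion J, rho a q := by
    unfold Es
    rw [Finset.prod_univ_sum]
    refine Finset.sum_congr rfl fun J hJ => ?_
    rw [Fintype.mem_piFinset] at hJ
    rw [Finset.prod_biUnion]
    intro i _ j _ hij
    exact (hTd i j hij).mono (Finset.mem_powersetCard.1 (hJ i)).1 (Finset.mem_powersetCard.1 (hJ j)).1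
  have hint : ∀ S : Finset ℕ, Integrable (fun ω => ∏ q ∈ S, ff q (Fr g m c ω q)) P := by
    intro S
    refine Integrable.of_bound (C := 1) ?_ (Eventually.of_forall fun ω => ?_)
    · exact (Finset.measurable_prod _ fun q _ => (measurable_ff q).comp (h.measurable_Fr g m q)).aestronglyMeasurable
    · rw [Real.norm_of_nonneg (Finset.prod_nonneg fun q _ => ff_nonneg _ _)]
      exact Finset.prod_le_one (fun q _ => ff_nonneg _ _) fun q _ => ff_le_one _ _
  simp_rw [e1]
  rw [integral_finsetSum _ fun J _ => hint _, e2, ← Finset.sum_sub_distrib, Finset.mul_sum]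
  refine (Finset.abs_sum_le_sum_abs _ _).trans (Finset.sum_le_sum fun J hJ => ?_)
  rw [Fintype.mem_piFinset] at hJ
  refine hZ _ ?_ ?_
  · rw [Finset.card_biUnion]
    · exact Finset.sum_congr rfl fun i _ => (Finset.mem_powersetCard.1 (hJ i)).2
    · intro i _ j _ hij
      exact (hTd i j hij).mono (Finset.mem_powersetCard.1 (hJ i)).1 (Finset.mem_powersetCard.1 (hJ j)).1
  · intro q hq
    rw [Finset.mem_biUnion] at hq
    obtain ⟨i, _, hi⟩ := hq
    exact hT i q ((Finset.mem_powersetCard.1 (hJ i)).1 hi)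

end

/-- the primes in `(α z, β z]` -/
noncomputable def Pw (α β z : ℝ) : Finset ℕ := (Finset.Ioc ⌊α * z⌋₊ ⌊β * z⌋₊).filter Nat.Prime

lemma Pw_sum {α β : ℝ} (hα : 0 < α) (hαβ : α < β) :
    Tendsto (fun z : ℝ => ∑ q ∈ Pw α β z, Real.log q / q) atTop (𝓝 (Real.log (β / α))) := by
  have hβ : 0 < β := hα.trans hαβ
  set l := Real.log (β / α) with hl
  have hl0 : 0 < l := Real.log_pos (by rwa [one_lt_div hα])
  have hel : Real.exp l = β / α := Real.exp_log (by positivity)
  have hαz : Tendsto (fun z : ℝ => α * z) atTop atTop := tendsto_id.const_mul_atTop hα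
  have hβz : Tendsto (fun z : ℝ => β * z) atTop atTop := tendsto_id.const_mul_atTop hβ
  have h1 : Tendsto (fun z : ℝ => RL l (α * z) * Real.log (α * z)) atTop (𝓝 l) :=
    (RL_tendsto hl0).comp hαz
  have h2 : Tendsto (fun z : ℝ => Real.log (β * z) / Real.log (α * z)) atTop (𝓝 1) := by
    have h3 : Tendsto (fun z : ℝ => 1 + l / Real.log (α * z)) atTop (𝓝 (1 + 0)) :=
      ((Real.tendsto_log_atTop.comp hαz).const_div_atTop l).const_add 1
    rw [add_zero] at h3
    refine h3.congr' ?_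
    filter_upwards [eventually_gt_atTop (2 / α), eventually_gt_atTop 0] with z hz hz0
    have h4 : 1 < α * z := by
      rw [div_lt_iff₀ hα] at hz
      linarith
    have h5 : Real.log (β * z) = l + Real.log (α * z) := by
      rw [hl, ← Real.log_mul (by positivity) (by positivity)]
      congr 1
      field_simp
    rw [h5]
    have := Real.log_pos h4
    field_simp
    ring
  have h3 : Tendsto (fun z : ℝ => RL l (α * z) * Real.log (α * z) * (Real.log (β * z) / Real.log (α * z)))
      atTop (𝓝 l) := by simpa using h1.mul h2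
  refine tendsto_of_tendsto_of_tendsto_of_le_of_le' h1 h3 ?_ ?_
  · filter_upwards [eventually_gt_atTop (2 / α), eventually_gt_atTop 0] with z hz hz0
    have h4 : 1 < α * z := by
      rw [div_lt_iff₀ hα] at hz
      linarith
    have e : Real.exp l * (α * z) = β * z := by rw [hel]; field_simp
    unfold RL Pw
    rw [e, Finset.sum_mul, Finset.sum_filter]
    refine Finset.sum_le_sum fun q hq => ?_
    rw [Finset.mem_Ioc, Nat.floor_lt (by positivity)] at hq
    unfold pr
    split_ifs with hp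
    · have : Real.log (α * z) ≤ Real.log q := Real.log_le_log (by positivity) hq.1.le
      have hq0 : (0 : ℝ) < q := by linarith [hq.1]
      rw [mul_one, div_eq_inv_mul]
      exact mul_le_mul_of_nonneg_left this (by positivity)
    · simp
  · filter_upwards [eventually_gt_atTop (2 / α), eventually_gt_atTop 0] with z hz hz0
    have h4 : 1 < α * z := by
      rw [div_lt_iff₀ hα] at hz
      linarith
    have h4' := Real.log_pos h4
    have e : Real.exp l * (α * z) = β * z := by rw [hel]; field_simp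
    have e2 : RL l (α * z) * Real.log (α * z) * (Real.log (β * z) / Real.log (α * z)) =
        RL l (α * z) * Real.log (β * z) := by field_simp
    rw [e2]
    unfold RL Pw
    rw [e, Finset.sum_mul, Finset.sum_filter]
    refine Finset.sum_le_sum fun q hq => ?_
    rw [Finset.mem_Ioc, Nat.floor_lt (by positivity), Nat.le_floor_iff (by positivity)] at hq
    have hq0 : (0 : ℝ) < q := by linarith [hq.1]
    unfold pr
    split_ifs with hp
    · have : Real.log q ≤ Real.log (β * z) := Real.log_le_log hq0 hq.2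
      rw [mul_one, div_eq_inv_mul]
      exact mul_le_mul_of_nonneg_left this (by positivity)
    · simp

lemma rho_tendsto {a : ℝ} : Tendsto (fun q : ℕ => rho a q) atTop (𝓝 0) := by
  have h1 : Tendsto (fun x : ℝ => Real.log x / x) atTop (𝓝 0) := by
    have := Real.isLittleO_log_id_atTop.tendsto_div_nhds_zero
    simpa using this
  have h2 := (h1.comp (tendsto_natCast_atTop_atTop (R := ℝ))).const_mul
    (Real.exp Real.eulerMascheroniConstant / a)
  rw [mul_zero] at h2
  exact h2

lemma Pw_rho {a : ℝ} {α β : ℝ} (hα : 0 < α) (hαβ : α < β) :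
    Tendsto (fun z : ℝ => ∑ q ∈ Pw α β z, rho a q) atTop
      (𝓝 (Real.exp Real.eulerMascheroniConstant / a * Real.log (β / α))) := by
  unfold rho
  simp_rw [← Finset.mul_sum]
  exact (Pw_sum hα hαβ).const_mul _

lemma Pw_ge {α β : ℝ} (hα : 0 < α) (Z : ℕ) : ∀ᶠ z : ℝ in atTop, ∀ q ∈ Pw α β z, Z ≤ q := by
  filter_upwards [eventually_ge_atTop ((Z : ℝ) / α), eventually_ge_atTop 0] with z hz hz0 q hq
  rw [Pw, Finset.mem_filter, Finset.mem_Ioc, Nat.floor_lt (by positivity)] at hq
  rw [div_le_iff₀ hα] at hz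
  have h1 : (Z : ℝ) < q := by linarith [hq.1.1]
  exact_mod_cast h1.le

lemma Pw_rho_sq {a : ℝ} (ha : 0 < a) {α β : ℝ} (hα : 0 < α) (hαβ : α < β) :
    Tendsto (fun z : ℝ => ∑ q ∈ Pw α β z, rho a q ^ 2) atTop (𝓝 0) := by
  have h1 := Pw_rho (a := a) hα hαβ
  set lam := Real.exp Real.eulerMascheroniConstant / a * Real.log (β / α) with hlam
  have hlam0 : 0 < lam := by
    have : 0 < Real.log (β / α) := Real.log_pos (by rwa [one_lt_div hα])
    positivity
  rw [Metric.tendsto_nhds]
  intro ε hε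
  obtain ⟨Z, hZ⟩ := ((Metric.tendsto_nhds.1 (rho_tendsto (a := a))) (ε / (2 * lam)) (by positivity)).exists_forall_of_atTop
  filter_upwards [Pw_ge (β := β) hα Z, h1.eventually_lt_const (show lam < 2 * lam by linarith)] with z hz h2
  have h0 : 0 ≤ ∑ q ∈ Pw α β z, rho a q ^ 2 := Finset.sum_nonneg fun q _ => by positivity
  rw [Real.dist_eq, sub_zero, abs_of_nonneg h0]
  have h3 : ∑ q ∈ Pw α β z, rho a q ^ 2 ≤ ε / (2 * lam) * ∑ q ∈ Pw α β z, rho a q := by
    rw [Finset.mul_sum]
    refine Finset.sum_le_sum fun q hq => ?_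
    have h4 := hZ q (hz q hq)
    rw [Real.dist_eq, sub_zero, abs_of_nonneg (rho_nonneg ha q)] at h4
    have := rho_nonneg ha q
    rw [pow_two]
    exact mul_le_mul_of_nonneg_right h4.le this
  refine h3.trans_lt ?_
  calc ε / (2 * lam) * ∑ q ∈ Pw α β z, rho a q < ε / (2 * lam) * (2 * lam) :=
        mul_lt_mul_of_pos_left h2 (by positivity)
    _ = ε := by field_simp

/-- **Poisson law.** -/
theorem poisson {Ω : Type} [MeasurableSpace Ω] {P : Measure Ω} [IsProbabilityMeasure P] {r : ℕ → ℝ}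
    {c : ℕ → Ω → ℝ} (h : Coeffs P r c) {g : ℕ → ℝ} {a : ℝ} (ha : 0 < a)
    (hg : Tendsto (fun p : ℕ => g p / p) atTop (𝓝 a)) (m : ℕ) {ι : Type} [Fintype ι] [DecidableEq ι]
    (α β : ι → ℝ) (hα : ∀ i, 0 < α i) (hαβ : ∀ i, α i < β i)
    (hdisj : ∀ i j, i ≠ j → Disjoint (Set.Ioc (α i) (β i)) (Set.Ioc (α j) (β j))) (n : ι → ℕ) :
    Tendsto (fun z : ℝ => P.real {ω | ∀ i, Cn g m c (Pw (α i) (β i) z) ω = n i}) atTop
      (𝓝 (∏ i, (Real.exp (-(Real.exp Real.eulerMascheroniConstant / a * Real.log (β i / α i))) *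
        (Real.exp Real.eulerMascheroniConstant / a * Real.log (β i / α i)) ^ (n i) / (n i).factorial))) := by
  refine poisson_limit (N := fun (z : ℝ) i ω => Cn g m c (Pw (α i) (β i) z) ω)
    (fun z i => h.measurable_Cn g m _) (fun z => ?_) (fun k => ?_) n
  · refine ⟨∑ i, (Pw (α i) (β i) z).card, fun i ω => ?_⟩
    refine (Finset.card_filter_le _ _).trans ?_
    exact Finset.single_le_sum (f := fun i => (Pw (α i) (β i) z).card) (fun _ _ => Nat.zero_le _) (Finset.mem_univ i)
  · set lam : ι → ℝ := fun i => Real.exp Real.eulerMascheroniConstant / a * Real.log (β i / α i) with hlam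
    have h1 : Tendsto (fun z : ℝ => ∏ i, Es (rho a) (k i) (Pw (α i) (β i) z)) atTop
        (𝓝 (∏ i, lam i ^ (k i) / (k i).factorial)) :=
      tendsto_finsetProd _ fun i _ => Es_tendsto (rho_nonneg ha) (Pw_rho (hα i) (hαβ i))
        (Pw_rho_sq ha (hα i) (hαβ i)) (k i)
    set b : ℝ := ∏ i, lam i ^ (k i) / (k i).factorial with hb
    rw [Metric.tendsto_nhds]
    intro ε hε
    set δ := min 1 (ε / (2 * (|b| + 1 + ε))) with hδ
    have hb1 : 0 < |b| + 1 + ε := by positivity
    have hδ0 : 0 < δ := lt_min one_pos (by positivity)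
    obtain ⟨Z, hZ⟩ := mixed h ha hg m k hδ0
    have h2 : ∀ᶠ z : ℝ in atTop, ∀ i, ∀ q ∈ Pw (α i) (β i) z, Z ≤ q :=
      eventually_all.2 fun i => Pw_ge (hα i) Z
    filter_upwards [h2, (Metric.tendsto_nhds.1 h1) (ε / 2) (by positivity), eventually_gt_atTop 0] with z h3 h4 hz0
    have h5 := hZ (fun i => Pw (α i) (β i) z) h3 (fun i j hij => by
      rw [Finset.disjoint_left]
      intro q hq hq'
      rw [Pw, Finset.mem_filter, Finset.mem_Ioc, Nat.floor_lt (mul_nonneg (hα _).le hz0.le),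
        Nat.le_floor_iff (mul_nonneg ((hα _).trans (hαβ _)).le hz0.le)] at hq hq'
      have h6 : (q : ℝ) / z ∈ Set.Ioc (α i) (β i) := by
        rw [Set.mem_Ioc, lt_div_iff₀ hz0, div_le_iff₀ hz0]; exact hq.1
      have h7 : (q : ℝ) / z ∈ Set.Ioc (α j) (β j) := by
        rw [Set.mem_Ioc, lt_div_iff₀ hz0, div_le_iff₀ hz0]; exact hq'.1
      exact Set.disjoint_left.1 (hdisj i j hij) h6 h7)
    set E := ∏ i, Es (rho a) (k i) (Pw (α i) (β i) z) with hE
    rw [Real.dist_eq] at h4 ⊢
    have h6 : E ≤ |b| + 1 + ε := by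
      have := (abs_lt.1 h4).2
      have := le_abs_self b
      linarith
    have h7 : δ * E ≤ ε / 2 := by
      calc δ * E ≤ δ * (|b| + 1 + ε) := mul_le_mul_of_nonneg_left h6 hδ0.le
        _ ≤ (ε / (2 * (|b| + 1 + ε))) * (|b| + 1 + ε) :=
            mul_le_mul_of_nonneg_right (min_le_right _ _) hb1.le
        _ = ε / 2 := by field_simp
    have h8 := abs_le.1 h5
    have h9 := abs_lt.1 h4
    rw [abs_lt]
    constructor <;> linarith [h8.1, h8.2, h9.1, h9.2]

end Pool.Agent.Helper18K9.PL
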